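import Pool.Agent.Helper31.Grid.Top

namespace Pool.Agent.Helper31.Grid
open Pool.Agent.Helper52.Grid

variable {s : List Sub} {M : ℕ} {a ch : ℕ → Bool} {S : Pt → Prop}

theorem BT.all {k i : ℕ} (B : BT S k i) {T : Prop} (t1 : Q S k 0 i 1 ↔ T)
    (t3 : Q S k 0 i 3 ↔ T) (t4 : Q S k 4 i 3 ↔ T) (j r : ℕ) (hj : j < 4) (hr : r < 6)
    (h : hCell .blk r j = 0 ∨ vCell .blk r j = 0) : Q S k j i r ↔ T := by
  interval_cases r <;> interval_cases j <;>
    first
    | exact absurd h (by decide)
    | exact t1
    | exact B.a1.trans t1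
    | exact B.a2.trans t1
    | exact B.a3.trans t1
    | exact t3
    | exact B.b1.trans t3
    | exact B.b2.trans t3
    | exact B.b3.trans t3
    | exact B.b4.trans t3
    | exact B.b5.trans t3
    | exact B.b6.trans t3
    | exact B.t1.trans t4
    | exact B.t2.trans t4
    | exact B.t3.trans t4
    | exact B.t4.trans t4
    | exact B.t5.trans t4
    | exact B.t6.trans t4
    | exact B.t7.trans t4

theorem BF.all {k i : ℕ} (B : BF S k i) {T : Prop} (t1 : Q S k 0 i 1 ↔ T)
    (t3 : Q S k 4 i 1 ↔ T) (t4 : Q S k 0 i 5 ↔ T) (j r : ℕ) (hj : j < 4) (hr : r < 6)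
    (h : hCell .blk r j = 0 ∨ vCell .blk r j = 0) : Q S k j i r ↔ T := by
  interval_cases r <;> interval_cases j <;>
    first
    | exact absurd h (by decide)
    | exact t1
    | exact B.a1.trans t1
    | exact B.a2.trans t1
    | exact B.a3.trans t1
    | exact B.a4.trans t1
    | exact B.b1.trans t3
    | exact B.b2.trans t3
    | exact B.b3.trans t3
    | exact B.b4.trans t3
    | exact B.b5.trans t3
    | exact t4
    | exact B.t1.trans t4
    | exact B.t2.trans t4
    | exact B.t3.trans t4
    | exact B.t4.trans t4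
    | exact B.t5.trans t4
    | exact B.t6.trans t4
    | exact B.t7.trans t4

theorem block_all (hS : Cl s M a ch S) (hrow : ∀ k i d, sg s k = some (i, d) → i < 2 * M + 1)
    {k i : ℕ} (hk : k < s.length) (hi : i < 2 * M + 1)
    (hkd : kind (sg s k) i = .blk ∨ kind (sg s k) i = .dblk) (j r : ℕ) (hj : j < 4) (hr : r < 6)
    (h : hCell .blk r j = 0 ∨ vCell .blk r j = 0) : Q S k j i r ↔ S (1, 3) := by
  obtain ⟨t1, t3, t5⟩ := rows_T hS hrow hi hk.le
  obtain ⟨u1, u3, u5⟩ := rows_T hS hrow hi (show k + 1 ≤ s.length by omega)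
  rw [← Q4] at u1 u3 u5
  cases hb : bst s a i k
  · exact (block_false hS hk hi hkd hb).all t1 u1 t5 j r hj hr h
  · exact (block_true hS hk hi hkd hb).all t1 t3 u3 j r hj hr h

theorem cross_all (hS : Cl s M a ch S) (hrow : ∀ k i d, sg s k = some (i, d) → i < 2 * M + 1)
    {k i : ℕ} (hk : k < s.length) (hi : i < 2 * M + 1)
    (hkd : kind (sg s k) i = .cross) (j r : ℕ) (hj : j < 4) (hr : r = 1 ∨ r = 3 ∨ r = 5) :
    Q S k j i r ↔ S (1, 3) := by
  obtain ⟨t1, t3, t5⟩ := rows_T hS hrow hi hk.le
  have t : Q S k 0 i r ↔ S (1, 3) := by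
    rcases hr with rfl | rfl | rfl
    · exact t1
    · exact t3
    · exact t5
  obtain ⟨e1, e2, e3, e4⟩ := strand_cross hS hk hi hrow hkd r hr
  interval_cases j
  · exact t
  · exact e1.trans t
  · exact e2.trans t
  · exact e3.trans t

/-- the first point of a docked cell on the strands -/
theorem dock_pt (hS : Cl s M a ch S) (hrow : ∀ k i d, sg s k = some (i, d) → i < 2 * M + 1)
    {k i : ℕ} (hk : k < s.length) (hi : i < 2 * M + 1)
    (hkd : kind (sg s k) i = .cross ∨ kind (sg s k) i = .dblk) : Q S k 1 i 1 ↔ S (1, 3) := by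
  rcases hkd with hkd | hkd
  · exact cross_all hS hrow hk hi hkd 1 1 (by omega) (by omega)
  · obtain ⟨t1, t3, t5⟩ := rows_T hS hrow hi hk.le
    cases hb : bst s a i k
    · exact (block_false hS hk hi (Or.inr hkd) hb).a1.trans t1
    · exact (block_true hS hk hi (Or.inr hkd) hb).a1.trans t1

/-- clusters between rows -/
theorem cluster0 (hS : Cl s M a ch S) (hc : Choice s a ch)
    (hrow : ∀ k i d, sg s k = some (i, d) → i < 2 * M + 1)
    (h0 : 0 < s.length → sg s 0 = none)
    {k i : ℕ} (hk : k < s.length) (hi : i < 2 * M + 1)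
    (hkd : kind (sg s k) i = .cross ∨ kind (sg s k) i = .dblk) : Q S k 1 i 0 ↔ S (1, 3) := by
  obtain ⟨v, hv, hiv⟩ : ∃ v, sg s k = some (v, true) ∧ i ≤ v := by
    rcases hkd with h | h
    · obtain ⟨v, h1, h2⟩ := kind_cross h
      exact ⟨v, h1, h2.le⟩
    · exact ⟨i, kind_dblk h, le_refl _⟩
  cases hch : ch k
  · rcases Nat.eq_zero_or_pos i with h | h
    · subst h
      have v1 : S (5 + 4 * k + 1, 3) ↔ S (5 + 4 * k + 1, 4) := by
        refine hS.top_v hk (by omega) (by omega) (Or.inr (Or.inr ⟨?_, rfl, hch⟩))
        rw [vT_cell hk (by omega), if_neg (by omega), if_neg (by omega),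
          if_pos ⟨Or.inl rfl, dock_iff.2 ⟨v, hv⟩⟩]
      exact v1.symm.trans (top_T hS hc h0 _ (by omega) (by omega))
    · obtain ⟨i', rfl⟩ : ∃ i', i = i' + 1 := ⟨i - 1, by omega⟩
      have hkc : kind (sg s k) i' = .cross := by
        rw [hv]; exact kind_cross_of (by omega)
      have e := hS.qv' hk (by omega) hkc rfl hch 1 5 (by omega) (by omega) rfl
      rw [Q6] at e
      exact e.symm.trans (cross_all hS hrow hk (by omega) hkc 1 5 (by omega) (by omega))
  · have e : Q S k 1 i 0 ↔ Q S k 1 i 1 := by
      rcases hkd with h | h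
      · exact hS.qv' hk hi h rfl hch 1 0 (by omega) (by omega) rfl
      · exact hS.qv' hk hi h rfl hch 1 0 (by omega) (by omega) rfl
    exact e.trans (dock_pt hS hrow hk hi hkd)

theorem cell_T (hS : Cl s M a ch S) (hc : Choice s a ch)
    (hrow : ∀ k i d, sg s k = some (i, d) → i < 2 * M + 1)
    (h0 : 0 < s.length → sg s 0 = none)
    {k i : ℕ} (hk : k < s.length) (hi : i < 2 * M + 1) (j r : ℕ) (hj : j < 4) (hr : r < 6)
    (h : hCell (kind (sg s k) i) r j = 0 ∨ vCell (kind (sg s k) i) r j = 0) :
    Q S k j i r ↔ S (1, 3) := by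
  obtain ⟨t1, t3, t5⟩ := rows_T hS hrow hi hk.le
  cases hkd : kind (sg s k) i
  · -- plain
    rw [hkd] at h
    have hr' : r = 1 ∨ r = 3 ∨ r = 5 := by
      interval_cases r <;> interval_cases j <;>
        first
        | exact absurd h (by decide)
        | omega
    have t : Q S k 0 i r ↔ S (1, 3) := by
      rcases hr' with rfl | rfl | rfl
      · exact t1
      · exact t3
      · exact t5
    obtain ⟨e1, e2, e3, e4⟩ := strand_plain hS hk hi hkd r hr'
    interval_cases j
    · exact t
    · exact e1.trans t
    · exact e2.trans t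
    · exact e3.trans t
  · -- cross
    rw [hkd] at h
    by_cases hr' : r = 1 ∨ r = 3 ∨ r = 5
    · exact cross_all hS hrow hk hi hkd j r hj hr'
    · have hj1 : j = 1 := by
        have hr'' : r = 0 ∨ r = 2 ∨ r = 4 := by omega
        rcases hr'' with rfl | rfl | rfl <;> interval_cases j <;>
          first
          | exact absurd h (by decide)
          | rfl
      subst hj1
      have hr'' : r = 0 ∨ r = 2 ∨ r = 4 := by omega
      rcases hr'' with rfl | rfl | rfl
      · exact cluster0 hS hc hrow h0 hk hi (Or.inl hkd)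
      · cases hch : ch k
        · have e := hS.qv' hk hi hkd rfl hch 1 1 (by omega) (by omega) rfl
          exact e.symm.trans (cross_all hS hrow hk hi hkd 1 1 (by omega) (by omega))
        · have e := hS.qv' hk hi hkd rfl hch 1 2 (by omega) (by omega) rfl
          exact e.trans (cross_all hS hrow hk hi hkd 1 3 (by omega) (by omega))
      · cases hch : ch k
        · have e := hS.qv' hk hi hkd rfl hch 1 3 (by omega) (by omega) rfl
          exact e.symm.trans (cross_all hS hrow hk hi hkd 1 3 (by omega) (by omega))
        · have e := hS.qv' hk hi hkd rfl hch 1 4 (by omega) (by omega) rfl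
          exact e.trans (cross_all hS hrow hk hi hkd 1 5 (by omega) (by omega))
  · rw [hkd] at h
    exact block_all hS hrow hk hi (Or.inl hkd) j r hj hr h
  · rw [hkd] at h
    by_cases h01 : r = 0 ∧ j = 1
    · obtain ⟨rfl, rfl⟩ := h01
      exact cluster0 hS hc hrow h0 hk hi (Or.inr hkd)
    · refine block_all hS hrow hk hi (Or.inr hkd) j r hj hr ?_
      revert h h01
      interval_cases r <;> interval_cases j <;> decide

theorem left_T (hS : Cl s M a ch S)
    (hrow : ∀ k i d, sg s k = some (i, d) → i < 2 * M + 1)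
    {i : ℕ} (hi : i < 2 * M + 1) (x r : ℕ) (hx : x < 5) (hr : r < 6)
    (h : hL M i r x = 0 ∨ vL M i r x = 0) :
    S (x, 4 + 6 * i + r) ↔ S (1, 3) := by
  obtain ⟨t1, t3, t5⟩ := rows_T hS hrow hi (Nat.zero_le _)
  have L := left_end hS hi
  have w := left_w hS hrow hi
  interval_cases x
  · exfalso
    interval_cases r <;> simp [hL, vL] at h
  · -- x = 1
    refine closing hS _ (by omega) ?_
    by_contra hcon
    have h1 : hL M i r 1 = 4 := by
      have : r ≠ 4 := by omega
      interval_cases r <;> first | rfl | exact absurd rfl this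
    have h2 : vL M i r 1 = 4 := by
      simp only [vL]
      rw [if_neg (by omega)]
    rw [h1, h2] at h
    omega
  · -- x = 2
    by_cases hr4 : r = 4
    · subst hr4
      exact (L.p8.trans w).trans t1
    · have h1 : hL M i r 2 = 4 := by
        interval_cases r <;> first | rfl | exact absurd rfl hr4
      rw [h1] at h
      have h2 : vL M i r 2 = 0 := by
        rcases h with h | h
        · omega
        · exact h
      simp only [vL] at h2
      split_ifs at h2 with g1 g2 g3
      · exact ((row_next hS hrow (by omega)).2.1 g1 r g2.2 (by omega)).trans t1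
      · obtain ⟨i', rfl⟩ : ∃ i', i = i' + 1 := ⟨i - 1, by omega⟩
        have e : 4 + 6 * (i' + 1) + r = 4 + 6 * i' + (6 + r) := by omega
        rw [e]
        have t1' := (rows_T hS hrow (show i' < 2 * M + 1 by omega) (Nat.zero_le _)).1
        exact ((row_next hS hrow (by omega)).2.1 (by omega) (6 + r) (by omega) (by omega)).trans t1'
  · -- x = 3
    interval_cases r
    · exact absurd h (by simp [hL, vL])
    · exact L.p2.trans t1
    · exact L.p3.trans t1
    · exact L.p4.trans t1
    · exact w.trans t1
    · exact absurd h (by simp [hL, vL])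
  · interval_cases r
    · exact absurd h (by simp [hL, vL])
    · exact L.p1.trans t1
    · exact absurd h (by simp [hL, vL])
    · exact L.p5.trans t3
    · exact L.p7.trans t5
    · exact L.p6.trans t5

theorem right_T (hS : Cl s M a ch S) (hc : Choice s a ch)
    (hrow : ∀ k i d, sg s k = some (i, d) → i < 2 * M + 1)
    (h0 : 0 < s.length → sg s 0 = none)
    {i : ℕ} (hi : i < 2 * M + 1) (x r : ℕ) (hr : r < 6)
    (h : hR r x = 0 ∨ vR i r x = 0) :
    S (5 + 4 * s.length + x, 4 + 6 * i + r) ↔ S (1, 3) := by
  obtain ⟨t1, t3, t5⟩ := rows_T hS hrow hi (le_refl _)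
  obtain ⟨u1, u3, u5⟩ := rows_T hS hrow hi (Nat.zero_le _)
  have R := right_end hS hi
  have w := right_w hS hrow hi
  rcases Nat.lt_or_ge x 3 with hx | hx
  · interval_cases x
    · interval_cases r
      · exact absurd h (by simp [hR, vR])
      · exact t1
      · exact absurd h (by simp [hR, vR])
      · exact t3
      · exact R.p4.trans t5
      · exact t5
    · interval_cases r
      · exact absurd h (by simp [hR, vR])
      · exact R.p1.trans t1
      · exact R.p2.trans t1
      · exact R.p3.trans t1
      · exact w.trans u1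
      · exact absurd h (by simp [hR, vR])
    · have h1 : hR r 2 = 4 := by
        interval_cases r <;> rfl
      rw [h1] at h
      have h2 : vR i r 2 = 0 := by
        rcases h with h | h
        · omega
        · exact h
      simp only [vR] at h2
      split_ifs at h2 with g1 g2 g3
      · -- even row, upper part
        rcases Nat.eq_zero_or_pos i with hi0 | hi0
        · subst hi0
          have A : ∀ r, r ≤ 3 → (S (5 + 4 * s.length + 2, 4 + 6 * 0 + r) ↔ S (1, 3)) := by
            intro r
            induction r with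
            | zero =>
              intro _
              have e : S (5 + 4 * s.length + 2, 3) ↔ S (5 + 4 * s.length + 2, 4) := by
                refine hS.v _ _ ((vUse_top (by omega)).trans ?_)
                rw [vT, if_neg (by omega), if_neg (by omega), if_pos ⟨rfl, by omega⟩]; rfl
              exact e.symm.trans (top_T hS hc h0 _ (by omega) (by omega))
            | succ r ih =>
              intro hr3
              refine Iff.trans (Iff.symm ?_) (ih (by omega))
              refine hS.v _ _ ((vUse_right hi (by omega)).trans ?_)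
              have : vR 0 r 2 = 0 := by
                have h4 : r < 4 := by omega
                simp [vR, h4]
              rw [this]; rfl
          exact A r (by omega)
        · obtain ⟨i', rfl⟩ : ∃ i', i = i' + 1 := ⟨i - 1, by omega⟩
          have e : 4 + 6 * (i' + 1) + r = 4 + 6 * i' + (6 + r) := by omega
          rw [e]
          have t1' := (rows_T hS hrow (show i' < 2 * M + 1 by omega) (Nat.zero_le _)).1
          exact ((row_next hS hrow hi).2.2 (by omega) (6 + r) (by omega) (by omega)).trans t1'
      · have hiM : i + 1 < 2 * M + 1 := by omega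
        exact ((row_next hS hrow hiM).2.2 (by omega) r (by omega) (by omega)).trans u1
  · exfalso
    have h1 : hR r x = 4 := by
      obtain ⟨x', rfl⟩ : ∃ x', x = x' + 3 := ⟨x - 3, by omega⟩
      interval_cases r <;> rfl
    have h2 : vR i r x = 4 := by
      obtain ⟨x', rfl⟩ : ∃ x', x = x' + 3 := ⟨x - 3, by omega⟩
      rfl
    rw [h1, h2] at h
    omega

theorem H_T (hS : Cl s M a ch S) (hc : Choice s a ch)
    (hrow : ∀ k i d, sg s k = some (i, d) → i < 2 * M + 1)
    (h0 : 0 < s.length → sg s 0 = none) (x y : ℕ)
    (h : hC s M x y = 0 ∨ vC s M x y = 0) : S (x, y) ↔ S (1, 3) := by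
  rcases Nat.lt_or_ge y 4 with hy | hy
  · -- above the rows
    rw [hC, vC, if_pos hy, if_pos hy] at h
    rcases Nat.lt_or_ge x 5 with hx | hx
    · rw [hT, vT, if_pos hx, if_pos hx] at h
      have h3 : y = 3 ∧ 1 ≤ x := by
        by_contra hcon
        rw [if_neg hcon, if_neg (by omega)] at h
        omega
      obtain ⟨rfl, hx1⟩ := h3
      exact top_T hS hc h0 x hx1 (by omega)
    · rcases Nat.lt_or_ge x (5 + 4 * s.length) with hx2 | hx2
      · have e : x = 5 + 4 * ((x - 5) / 4) + (x - 5) % 4 := by omega
        have hk : (x - 5) / 4 < s.length := by omega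
        have hj : (x - 5) % 4 < 4 := by omega
        rw [e] at h ⊢
        generalize (x - 5) / 4 = k at *
        generalize (x - 5) % 4 = j at *
        rw [hT_cell hk hj, vT_cell hk hj] at h
        interval_cases y
        · simp at h
        · exact (ring_T hS hc h0 hk hj).1
        · exact (ring_T hS hc h0 hk hj).2
        · exact top_T hS hc h0 _ (by omega) (by omega)
      · have n5 : ¬ x < 5 := by omega
        have n6 : ¬ x < 5 + 4 * s.length := by omega
        rw [hT, vT, if_neg n5, if_neg n5, if_neg n6, if_neg n6] at h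
        have h3 : y = 3 ∧ x ≤ 7 + 4 * s.length := by
          by_contra hcon
          rw [if_neg (by omega), if_neg (by omega)] at h
          omega
        obtain ⟨rfl, hx1⟩ := h3
        exact top_T hS hc h0 x (by omega) (by omega)
  · have ny : ¬ y < 4 := by omega
    rw [hC, vC, if_neg ny, if_neg ny] at h
    have e : y = 4 + 6 * ((y - 4) / 6) + (y - 4) % 6 := by omega
    have hr : (y - 4) % 6 < 6 := by omega
    by_cases hi : (y - 4) / 6 < 2 * M + 1
    · rw [if_pos hi, if_pos hi] at h
      rw [e]
      generalize (y - 4) / 6 = i at *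
      generalize (y - 4) % 6 = r at *
      rcases Nat.lt_or_ge x 5 with hx | hx
      · rw [if_pos hx, if_pos hx] at h
        exact left_T hS hrow hi x r hx hr h
      · have n5 : ¬ x < 5 := by omega
        rw [if_neg n5, if_neg n5] at h
        rcases Nat.lt_or_ge x (5 + 4 * s.length) with hx2 | hx2
        · rw [if_pos hx2, if_pos hx2] at h
          have e : x = 5 + 4 * ((x - 5) / 4) + (x - 5) % 4 := by omega
          have hk : (x - 5) / 4 < s.length := by omega
          have hj : (x - 5) % 4 < 4 := by omega
          rw [e]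
          exact cell_T hS hc hrow h0 hk hi _ r hj hr h
        · have n6 : ¬ x < 5 + 4 * s.length := by omega
          rw [if_neg n6, if_neg n6] at h
          have e : x = 5 + 4 * s.length + (x - (5 + 4 * s.length)) := by omega
          rw [e]
          exact right_T hS hc hrow h0 hi _ r hr h
    · rw [if_neg hi, if_neg hi] at h
      omega

theorem hC_zero (y : ℕ) : hC s M 0 y = 4 := by
  rcases Nat.lt_or_ge y 4 with hy | hy
  · rw [hC, if_pos hy, hT, if_pos (by omega), if_neg (by omega)]
  · rw [hC, if_neg (by omega)]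
    by_cases hi : (y - 4) / 6 < 2 * M + 1
    · rw [if_pos hi, if_pos (by omega)]
      have hr : (y - 4) % 6 < 6 := by omega
      generalize (y - 4) % 6 = r at *
      interval_cases r <;> rfl
    · rw [if_neg hi]

theorem vC_zero (x : ℕ) : vC s M x 0 = 4 := by
  rw [vC, if_pos (by omega), vT]
  simp

/-- (K2) connectedness -/
theorem s_Conn : S_Conn := by
  intro s M a ch hrow h0 hc S hh hv b hb
  have hS : Cl s M a ch S := ⟨hh, hv⟩
  obtain ⟨x, y⟩ := b
  rcases hb with h | h | h | h
  · exact H_T hS hc hrow h0 x y (Or.inl h)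
  · simp only at h
    rcases Nat.eq_zero_or_pos x with hx | hx
    · subst hx
      rw [hC_zero] at h
      omega
    · obtain ⟨x', rfl⟩ : ∃ x', x = x' + 1 := ⟨x - 1, by omega⟩
      rw [Nat.add_sub_cancel] at h
      have e := hh x' y (by rw [hUse, if_pos h])
      exact e.symm.trans (H_T hS hc hrow h0 x' y (Or.inl h))
  · exact H_T hS hc hrow h0 x y (Or.inr h)
  · simp only at h
    rcases Nat.eq_zero_or_pos y with hy | hy
    · subst hy
      rw [vC_zero] at h
      omega
    · obtain ⟨y', rfl⟩ : ∃ y', y = y' + 1 := ⟨y - 1, by omega⟩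
      rw [Nat.add_sub_cancel] at h
      have e := hv x y' (by rw [vUse, if_pos h])
      exact e.symm.trans (H_T hS hc hrow h0 x y' (Or.inr h))

end Pool.Agent.Helper31.Grid
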