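import Pool.Agent.Helper31.Grid.Cell

namespace Pool.Agent.Helper31.Grid
open Pool.Agent.Helper52.Grid

variable {s : List Sub} {M : ℕ} {a ch : ℕ → Bool} {S : Pt → Prop}

/-- the left end of a row -/
structure LE (s : List Sub) (a : ℕ → Bool) (S : Pt → Prop) (i : ℕ) : Prop where
  p1 : S (4, 4 + 6 * i + 1) ↔ Q S 0 0 i 1
  p2 : S (3, 4 + 6 * i + 1) ↔ Q S 0 0 i 1
  p3 : S (3, 4 + 6 * i + 2) ↔ Q S 0 0 i 1
  p4 : S (3, 4 + 6 * i + 3) ↔ Q S 0 0 i 1
  p5 : S (4, 4 + 6 * i + 3) ↔ Q S 0 0 i 3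
  p6 : S (4, 4 + 6 * i + 5) ↔ Q S 0 0 i 5
  p7 : S (4, 4 + 6 * i + 4) ↔ Q S 0 0 i 5
  p8 : S (2, 4 + 6 * i + 4) ↔ S (3, 4 + 6 * i + 4)
  tt : bst s a i 0 = true → (Q S 0 0 i 1 ↔ Q S 0 0 i 3) ∧ (S (3, 4 + 6 * i + 4) ↔ Q S 0 0 i 5)
  ff : bst s a i 0 = false → (Q S 0 0 i 3 ↔ Q S 0 0 i 5) ∧ (S (3, 4 + 6 * i + 4) ↔ Q S 0 0 i 1)

theorem left_end (hS : Cl s M a ch S) {i : ℕ} (hi : i < 2 * M + 1) : LE s a S i := by
  have H : ∀ x r, x < 5 → r < 6 → useOf (hL M i r x) (bst s a i 0) = true →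
      (S (x, 4 + 6 * i + r) ↔ S (x + 1, 4 + 6 * i + r)) := fun x r hx hr hu =>
    hS.h _ _ ((hUse_left hx hi hr).trans hu)
  have V : ∀ x r, x < 5 → r < 6 → useOf (vL M i r x) (!bst s a i 0) = true →
      (S (x, 4 + 6 * i + r) ↔ S (x, 4 + 6 * i + r + 1)) := fun x r hx hr hu =>
    hS.v _ _ ((vUse_left hx hi hr).trans hu)
  have h31 := H 3 1 (by omega) (by omega) rfl
  have h41 : S (4, 4 + 6 * i + 1) ↔ Q S 0 0 i 1 := H 4 1 (by omega) (by omega) rfl
  have h43 : S (4, 4 + 6 * i + 3) ↔ Q S 0 0 i 3 := H 4 3 (by omega) (by omega) rfl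
  have h45 : S (4, 4 + 6 * i + 5) ↔ Q S 0 0 i 5 := H 4 5 (by omega) (by omega) rfl
  have h24 := H 2 4 (by omega) (by omega) rfl
  have v31 := V 3 1 (by omega) (by omega) rfl
  have v32 := V 3 2 (by omega) (by omega) rfl
  have v44 := V 4 4 (by omega) (by omega) rfl
  have q3 : S (3, 4 + 6 * i + 3) ↔ Q S 0 0 i 1 := (v32.symm.trans v31.symm).trans (h31.trans h41)
  have q4 : S (4, 4 + 6 * i + 4) ↔ Q S 0 0 i 5 := v44.trans h45
  refine ⟨h41, h31.trans h41, v31.symm.trans (h31.trans h41), q3, h43, h45, q4, h24, ?_, ?_⟩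
  · intro hb
    have g1 := H 3 3 (by omega) (by omega) (by rw [hb]; rfl)
    have g2 := H 3 4 (by omega) (by omega) (by rw [hb]; rfl)
    exact ⟨(q3.symm.trans g1).trans h43, g2.trans q4⟩
  · intro hb
    have g1 := V 3 3 (by omega) (by omega) (by rw [hb]; rfl)
    have g2 := V 4 3 (by omega) (by omega) (by rw [hb]; rfl)
    exact ⟨(h43.symm.trans g2).trans q4, g1.symm.trans q3⟩

/-- the right end of a row -/
structure RE (s : List Sub) (a : ℕ → Bool) (S : Pt → Prop) (i : ℕ) : Prop where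
  p1 : S (5 + 4 * s.length + 1, 4 + 6 * i + 1) ↔ Q S s.length 0 i 1
  p2 : S (5 + 4 * s.length + 1, 4 + 6 * i + 2) ↔ Q S s.length 0 i 1
  p3 : S (5 + 4 * s.length + 1, 4 + 6 * i + 3) ↔ Q S s.length 0 i 1
  p4 : Q S s.length 0 i 4 ↔ Q S s.length 0 i 5
  p8 : S (5 + 4 * s.length + 2, 4 + 6 * i + 4) ↔ S (5 + 4 * s.length + 1, 4 + 6 * i + 4)
  tt : bst s a i s.length = true → (Q S s.length 0 i 3 ↔ Q S s.length 0 i 5) ∧
    (S (5 + 4 * s.length + 1, 4 + 6 * i + 4) ↔ Q S s.length 0 i 1)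
  ff : bst s a i s.length = false → (Q S s.length 0 i 1 ↔ Q S s.length 0 i 3) ∧
    (S (5 + 4 * s.length + 1, 4 + 6 * i + 4) ↔ Q S s.length 0 i 5)

theorem right_end (hS : Cl s M a ch S) {i : ℕ} (hi : i < 2 * M + 1) : RE s a S i := by
  have H : ∀ x r, r < 6 → useOf (hR r x) (!bst s a i s.length) = true →
      (S (5 + 4 * s.length + x, 4 + 6 * i + r) ↔ S (5 + 4 * s.length + x + 1, 4 + 6 * i + r)) :=
    fun x r hr hu => hS.h _ _ ((hUse_right hi hr).trans hu)
  have V : ∀ x r, r < 6 → useOf (vR i r x) (bst s a i s.length) = true →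
      (S (5 + 4 * s.length + x, 4 + 6 * i + r) ↔ S (5 + 4 * s.length + x, 4 + 6 * i + r + 1)) :=
    fun x r hr hu => hS.v _ _ ((vUse_right hi hr).trans hu)
  have h01 : Q S s.length 0 i 1 ↔ S (5 + 4 * s.length + 1, 4 + 6 * i + 1) :=
    H 0 1 (by omega) rfl
  have v04 : Q S s.length 0 i 4 ↔ Q S s.length 0 i 5 := V 0 4 (by omega) rfl
  have v11 : S (5 + 4 * s.length + 1, 4 + 6 * i + 1) ↔ S (5 + 4 * s.length + 1, 4 + 6 * i + 2) :=
    V 1 1 (by omega) rfl
  have v12 : S (5 + 4 * s.length + 1, 4 + 6 * i + 2) ↔ S (5 + 4 * s.length + 1, 4 + 6 * i + 3) :=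
    V 1 2 (by omega) rfl
  have h14 : S (5 + 4 * s.length + 1, 4 + 6 * i + 4) ↔ S (5 + 4 * s.length + 2, 4 + 6 * i + 4) :=
    H 1 4 (by omega) rfl
  have q3 := (v12.symm.trans v11.symm).trans h01.symm
  refine ⟨h01.symm, v11.symm.trans h01.symm, q3, v04, h14.symm, ?_, ?_⟩
  · intro hb
    have g1 : Q S s.length 0 i 3 ↔ Q S s.length 0 i 4 := V 0 3 (by omega) (by rw [hb]; rfl)
    have g2 : S (5 + 4 * s.length + 1, 4 + 6 * i + 3) ↔ S (5 + 4 * s.length + 1, 4 + 6 * i + 4) :=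
      V 1 3 (by omega) (by rw [hb]; rfl)
    exact ⟨g1.trans v04, g2.symm.trans q3⟩
  · intro hb
    have g1 : Q S s.length 0 i 3 ↔ S (5 + 4 * s.length + 1, 4 + 6 * i + 3) :=
      H 0 3 (by omega) (by rw [hb]; rfl)
    have g2 : Q S s.length 0 i 4 ↔ S (5 + 4 * s.length + 1, 4 + 6 * i + 4) :=
      H 0 4 (by omega) (by rw [hb]; rfl)
    exact ⟨(g1.trans q3).symm, g2.symm.trans v04⟩

/-- the transition at a cell -/
theorem trans_cell (hS : Cl s M a ch S) (hrow : ∀ k i d, sg s k = some (i, d) → i < 2 * M + 1)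
    {k i : ℕ} (hk : k < s.length) (hi : i < 2 * M + 1) :
    (bst s a i (k + 1) = bst s a i k ∧ (Q S k 0 i 1 ↔ Q S (k + 1) 0 i 1) ∧
      (Q S k 0 i 3 ↔ Q S (k + 1) 0 i 3) ∧ (Q S k 0 i 5 ↔ Q S (k + 1) 0 i 5)) ∨
    (bst s a i k = true ∧ bst s a i (k + 1) = false ∧ (Q S k 0 i 1 ↔ Q S (k + 1) 0 i 1) ∧
      (Q S k 0 i 3 ↔ Q S k 0 i 5) ∧ (Q S (k + 1) 0 i 3 ↔ Q S (k + 1) 0 i 5)) ∨
    (bst s a i k = false ∧ bst s a i (k + 1) = true ∧ (Q S k 0 i 5 ↔ Q S (k + 1) 0 i 5) ∧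
      (Q S k 0 i 1 ↔ Q S k 0 i 3) ∧ (Q S (k + 1) 0 i 1 ↔ Q S (k + 1) 0 i 3)) := by
  have nb : (kind (sg s k) i = .plain ∨ kind (sg s k) i = .cross) →
      ∀ d, sg s k ≠ some (i, d) := by
    intro h d hd
    rw [hd] at h
    cases d <;> simp [kind] at h
  have bk : ∀ d, sg s k = some (i, d) → kind (sg s k) i = .blk ∨ kind (sg s k) i = .dblk := by
    intro d hd
    rw [hd]
    cases d <;> simp [kind]
  have blockcase : (kind (sg s k) i = .blk ∨ kind (sg s k) i = .dblk) →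
      (∃ d, sg s k = some (i, d)) →
      (bst s a i k = true ∧ bst s a i (k + 1) = false ∧ (Q S k 0 i 1 ↔ Q S (k + 1) 0 i 1) ∧
      (Q S k 0 i 3 ↔ Q S k 0 i 5) ∧ (Q S (k + 1) 0 i 3 ↔ Q S (k + 1) 0 i 5)) ∨
    (bst s a i k = false ∧ bst s a i (k + 1) = true ∧ (Q S k 0 i 5 ↔ Q S (k + 1) 0 i 5) ∧
      (Q S k 0 i 1 ↔ Q S k 0 i 3) ∧ (Q S (k + 1) 0 i 1 ↔ Q S (k + 1) 0 i 3)) := by
    rintro hkd ⟨d, hd⟩
    have hb' := bst_succ_block (a := a) hk hd
    cases hb : bst s a i k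
    · right
      have B := block_false hS hk hi hkd hb
      refine ⟨rfl, by rw [hb', hb]; rfl, ?_, B.a4.symm, ?_⟩
      · rw [← Q4]; exact B.t8.symm
      · rw [← Q4, ← Q4]; exact B.b6.symm
    · left
      have B := block_true hS hk hi hkd hb
      refine ⟨rfl, by rw [hb', hb]; rfl, ?_, B.b6.symm, ?_⟩
      · rw [← Q4]; exact B.a4.symm
      · rw [← Q4, ← Q4]; exact B.t8.symm
  cases hkd : kind (sg s k) i
  · left
    refine ⟨bst_succ_other hk (nb (Or.inl hkd)), ?_, ?_, ?_⟩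
    · rw [← Q4]; exact (strand_plain hS hk hi hkd 1 (by omega)).2.2.2.symm
    · rw [← Q4]; exact (strand_plain hS hk hi hkd 3 (by omega)).2.2.2.symm
    · rw [← Q4]; exact (strand_plain hS hk hi hkd 5 (by omega)).2.2.2.symm
  · left
    refine ⟨bst_succ_other hk (nb (Or.inr hkd)), ?_, ?_, ?_⟩
    · rw [← Q4]; exact (strand_cross hS hk hi hrow hkd 1 (by omega)).2.2.2.symm
    · rw [← Q4]; exact (strand_cross hS hk hi hrow hkd 3 (by omega)).2.2.2.symm
    · rw [← Q4]; exact (strand_cross hS hk hi hrow hkd 5 (by omega)).2.2.2.symm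
  · right
    exact blockcase (Or.inl hkd) ⟨_, kind_blk hkd⟩
  · right
    exact blockcase (Or.inr hkd) ⟨_, kind_dblk hkd⟩

theorem left_info (hS : Cl s M a ch S) (hrow : ∀ k i d, sg s k = some (i, d) → i < 2 * M + 1)
    {i : ℕ} (hi : i < 2 * M + 1) : ∀ k, k ≤ s.length →
    (bst s a i k = true → (Q S k 0 i 1 ↔ Q S k 0 i 3)) ∧
      (bst s a i k = false → (Q S k 0 i 3 ↔ Q S k 0 i 5)) := by
  intro k
  induction k with
  | zero =>
    intro _
    exact ⟨fun h => ((left_end hS hi).tt h).1, fun h => ((left_end hS hi).ff h).1⟩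
  | succ k ih =>
    intro hk
    obtain ⟨i1, i2⟩ := ih (by omega)
    rcases trans_cell hS hrow (show k < s.length by omega) hi with h | h | h
    · obtain ⟨h0, h1, h2, h3⟩ := h
      rw [h0, ← h1, ← h2, ← h3]
      exact ⟨i1, i2⟩
    · obtain ⟨h0, h1, h2, h3, h4⟩ := h
      rw [h1]
      exact ⟨fun h => absurd h (by simp), fun _ => h4⟩
    · obtain ⟨h0, h1, h2, h3, h4⟩ := h
      rw [h1]
      exact ⟨fun _ => h4, fun h => absurd h (by simp)⟩

theorem right_info (hS : Cl s M a ch S) (hrow : ∀ k i d, sg s k = some (i, d) → i < 2 * M + 1)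
    {i : ℕ} (hi : i < 2 * M + 1) : ∀ n k, k + n = s.length →
    (bst s a i k = true → (Q S k 0 i 3 ↔ Q S k 0 i 5)) ∧
      (bst s a i k = false → (Q S k 0 i 1 ↔ Q S k 0 i 3)) := by
  intro n
  induction n with
  | zero =>
    intro k hk
    rw [show k = s.length by omega]
    exact ⟨fun h => ((right_end hS hi).tt h).1, fun h => ((right_end hS hi).ff h).1⟩
  | succ n ih =>
    intro k hk
    obtain ⟨i1, i2⟩ := ih (k + 1) (by omega)
    rcases trans_cell hS hrow (show k < s.length by omega) hi with h | h | h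
    · obtain ⟨h0, h1, h2, h3⟩ := h
      rw [← h0, h1, h2, h3]
      exact ⟨i1, i2⟩
    · obtain ⟨h0, h1, h2, h3, h4⟩ := h
      rw [h0]
      exact ⟨fun _ => h3, fun h => absurd h (by simp)⟩
    · obtain ⟨h0, h1, h2, h3, h4⟩ := h
      rw [h0]
      exact ⟨fun h => absurd h (by simp), fun _ => h3⟩

/-- at all boundaries the three strands agree -/
theorem bdry (hS : Cl s M a ch S) (hrow : ∀ k i d, sg s k = some (i, d) → i < 2 * M + 1)
    {i k : ℕ} (hi : i < 2 * M + 1) (hk : k ≤ s.length) :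
    (Q S k 0 i 3 ↔ Q S k 0 i 1) ∧ (Q S k 0 i 5 ↔ Q S k 0 i 1) := by
  obtain ⟨l1, l2⟩ := left_info hS hrow hi k hk
  obtain ⟨r1, r2⟩ := right_info hS hrow hi (s.length - k) k (by omega)
  cases hb : bst s a i k
  · exact ⟨(r2 hb).symm, ((r2 hb).trans (l2 hb)).symm⟩
  · exact ⟨(l1 hb).symm, ((l1 hb).trans (r1 hb)).symm⟩

theorem row_const (hS : Cl s M a ch S) (hrow : ∀ k i d, sg s k = some (i, d) → i < 2 * M + 1)
    {i : ℕ} (hi : i < 2 * M + 1) : ∀ k, k ≤ s.length → (Q S k 0 i 1 ↔ Q S 0 0 i 1) := by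
  intro k
  induction k with
  | zero => intro _; exact Iff.rfl
  | succ k ih =>
    intro hk
    have h0 := ih (by omega)
    obtain ⟨a1, a2⟩ := bdry hS hrow hi (show k ≤ s.length by omega)
    obtain ⟨b1, b2⟩ := bdry hS hrow hi hk
    rcases trans_cell hS hrow (show k < s.length by omega) hi with h | h | h
    · exact h.2.1.symm.trans h0
    · exact h.2.2.1.symm.trans h0
    · exact ((b2.symm.trans h.2.2.1.symm).trans a2).trans h0

/-- everything at boundaries is equivalent to the first strand at the left -/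
theorem row_all (hS : Cl s M a ch S) (hrow : ∀ k i d, sg s k = some (i, d) → i < 2 * M + 1)
    {i k : ℕ} (hi : i < 2 * M + 1) (hk : k ≤ s.length) :
    (Q S k 0 i 1 ↔ Q S 0 0 i 1) ∧ (Q S k 0 i 3 ↔ Q S 0 0 i 1) ∧ (Q S k 0 i 5 ↔ Q S 0 0 i 1) := by
  obtain ⟨b1, b2⟩ := bdry hS hrow hi hk
  have h := row_const hS hrow hi k hk
  exact ⟨h, b1.trans h, b2.trans h⟩

theorem left_w (hS : Cl s M a ch S) (hrow : ∀ k i d, sg s k = some (i, d) → i < 2 * M + 1)
    {i : ℕ} (hi : i < 2 * M + 1) : S (3, 4 + 6 * i + 4) ↔ Q S 0 0 i 1 := by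
  have L := left_end hS hi
  obtain ⟨b1, b2⟩ := bdry hS hrow hi (Nat.zero_le _)
  cases hb : bst s a i 0
  · exact (L.ff hb).2
  · exact (L.tt hb).2.trans b2

theorem right_w (hS : Cl s M a ch S) (hrow : ∀ k i d, sg s k = some (i, d) → i < 2 * M + 1)
    {i : ℕ} (hi : i < 2 * M + 1) :
    S (5 + 4 * s.length + 1, 4 + 6 * i + 4) ↔ Q S 0 0 i 1 := by
  have L := right_end hS hi
  obtain ⟨b0, b1, b2⟩ := row_all hS hrow hi (le_refl s.length)
  cases hb : bst s a i s.length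
  · exact (L.ff hb).2.trans b2
  · exact (L.tt hb).2.trans b0

/-- neighbouring rows -/
theorem row_next (hS : Cl s M a ch S) (hrow : ∀ k i d, sg s k = some (i, d) → i < 2 * M + 1)
    {i : ℕ} (hi : i + 1 < 2 * M + 1) :
    (Q S 0 0 i 1 ↔ Q S 0 0 (i + 1) 1) ∧
    (i % 2 = 0 → ∀ r, 4 ≤ r → r ≤ 10 → (S (2, 4 + 6 * i + r) ↔ Q S 0 0 i 1)) ∧
    (i % 2 = 1 → ∀ r, 4 ≤ r → r ≤ 10 →
      (S (5 + 4 * s.length + 2, 4 + 6 * i + r) ↔ Q S 0 0 i 1)) := by
  have hi' : i < 2 * M + 1 := by omega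
  have L := left_end hS hi'
  have L' := left_end hS hi
  have R := right_end hS hi'
  have R' := right_end hS hi
  rcases Nat.mod_two_eq_zero_or_one i with hp | hp
  · have V : ∀ r, 4 ≤ r → r < 10 → (S (2, 4 + 6 * i + r) ↔ S (2, 4 + 6 * i + r + 1)) := by
      intro r h4 h10
      rcases Nat.lt_or_ge r 6 with h6 | h6
      · refine hS.v _ _ ((vUse_left (by omega) hi' h6).trans ?_)
        have : vL M i r 2 = 0 := by
          simp only [vL]
          rw [if_pos hp, if_pos ⟨by omega, h4⟩]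
        rw [this]; rfl
      · have e : 4 + 6 * i + r = 4 + 6 * (i + 1) + (r - 6) := by omega
        rw [e]
        refine hS.v _ _ ((vUse_left (by omega) hi (by omega)).trans ?_)
        have : vL M (i + 1) (r - 6) 2 = 0 := by
          simp only [vL]
          rw [if_neg (by omega), if_pos (by omega)]
        rw [this]; rfl
    have A : ∀ r, 4 ≤ r → r ≤ 10 → (S (2, 4 + 6 * i + r) ↔ Q S 0 0 i 1) := by
      intro r h4
      induction r, h4 using Nat.le_induction with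
      | base =>
        intro _
        exact L.p8.trans (left_w hS hrow hi')
      | succ r h4 ih =>
        intro h10
        exact (V r h4 (by omega)).symm.trans (ih (by omega))
    refine ⟨?_, fun _ => A, fun h => absurd h (by omega)⟩
    have h10 := A 10 (by omega) (by omega)
    have e : 4 + 6 * i + 10 = 4 + 6 * (i + 1) + 4 := by omega
    rw [e] at h10
    exact h10.symm.trans (L'.p8.trans (left_w hS hrow hi))
  · have V : ∀ r, 4 ≤ r → r < 10 → (S (5 + 4 * s.length + 2, 4 + 6 * i + r) ↔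
        S (5 + 4 * s.length + 2, 4 + 6 * i + r + 1)) := by
      intro r h4 h10
      rcases Nat.lt_or_ge r 6 with h6 | h6
      · refine hS.v _ _ ((vUse_right hi' h6).trans ?_)
        have : vR i r 2 = 0 := by
          simp only [vR]
          rw [if_neg (by omega), if_pos h4]
        rw [this]; rfl
      · have e : 4 + 6 * i + r = 4 + 6 * (i + 1) + (r - 6) := by omega
        rw [e]
        refine hS.v _ _ ((vUse_right hi (by omega)).trans ?_)
        have : vR (i + 1) (r - 6) 2 = 0 := by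
          simp only [vR]
          rw [if_pos (by omega), if_pos (by omega)]
        rw [this]; rfl
    have A : ∀ r, 4 ≤ r → r ≤ 10 →
        (S (5 + 4 * s.length + 2, 4 + 6 * i + r) ↔ Q S 0 0 i 1) := by
      intro r h4
      induction r, h4 using Nat.le_induction with
      | base =>
        intro _
        exact R.p8.trans (right_w hS hrow hi')
      | succ r h4 ih =>
        intro h10
        exact (V r h4 (by omega)).symm.trans (ih (by omega))
    refine ⟨?_, fun h => absurd h (by omega), fun _ => A⟩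
    have h10 := A 10 (by omega) (by omega)
    have e : 4 + 6 * i + 10 = 4 + 6 * (i + 1) + 4 := by omega
    rw [e] at h10
    exact h10.symm.trans (R'.p8.trans (right_w hS hrow hi))

theorem rows_eq (hS : Cl s M a ch S) (hrow : ∀ k i d, sg s k = some (i, d) → i < 2 * M + 1) :
    ∀ i, i < 2 * M + 1 → (Q S 0 0 i 1 ↔ Q S 0 0 0 1) := by
  intro i
  induction i with
  | zero => intro _; exact Iff.rfl
  | succ i ih =>
    intro hi
    exact (row_next hS hrow hi).1.symm.trans (ih (by omega))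

/-- the closing column -/
theorem closing (hS : Cl s M a ch S) :
    ∀ y, 3 ≤ y → y ≤ 4 + 6 * (2 * M) + 4 → (S (1, y) ↔ S (1, 3)) := by
  intro y h3
  induction y, h3 using Nat.le_induction with
  | base => intro _; exact Iff.rfl
  | succ y h3 ih =>
    intro hy
    refine Iff.trans (Iff.symm ?_) (ih (by omega))
    rcases Nat.lt_or_ge y 4 with h | h
    · have hy3 : y = 3 := by omega
      subst hy3
      exact hS.v 1 3 ((vUse_top (by omega)).trans rfl)
    · have e : y = 4 + 6 * ((y - 4) / 6) + (y - 4) % 6 := by omega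
      have hq : (y - 4) / 6 < 2 * M + 1 := by omega
      have hr : (y - 4) % 6 < 6 := by omega
      rw [e]
      refine hS.v _ _ ((vUse_left (by omega) hq hr).trans ?_)
      have : vL M ((y - 4) / 6) ((y - 4) % 6) 1 = 0 := by
        simp only [vL]
        rw [if_pos (by omega)]
      rw [this]; rfl

theorem row0_T (hS : Cl s M a ch S) (hrow : ∀ k i d, sg s k = some (i, d) → i < 2 * M + 1) :
    Q S 0 0 0 1 ↔ S (1, 3) := by
  have h1 := rows_eq hS hrow (2 * M) (by omega)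
  have h2 := closing hS (4 + 6 * (2 * M) + 4) (by omega) (by omega)
  have h3 : S (1, 4 + 6 * (2 * M) + 4) ↔ S (2, 4 + 6 * (2 * M) + 4) := by
    refine hS.h _ _ ((hUse_left (by omega) (by omega) (by omega)).trans ?_)
    have : hL M (2 * M) 4 1 = 0 := by
      simp [hL]
    rw [this]; rfl
  have h4 := (left_end hS (show 2 * M < 2 * M + 1 by omega)).p8.trans
    (left_w hS hrow (by omega))
  exact h1.symm.trans (h4.symm.trans (h3.symm.trans h2))

theorem rows_T (hS : Cl s M a ch S) (hrow : ∀ k i d, sg s k = some (i, d) → i < 2 * M + 1)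
    {i k : ℕ} (hi : i < 2 * M + 1) (hk : k ≤ s.length) :
    (Q S k 0 i 1 ↔ S (1, 3)) ∧ (Q S k 0 i 3 ↔ S (1, 3)) ∧ (Q S k 0 i 5 ↔ S (1, 3)) := by
  obtain ⟨h1, h2, h3⟩ := row_all hS hrow hi hk
  have h := (rows_eq hS hrow i hi).trans (row0_T hS hrow)
  exact ⟨h1.trans h, h2.trans h, h3.trans h⟩

end Pool.Agent.Helper31.Grid
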