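import Pool.Agent.Helper31.Grid.Ev

namespace Pool.Agent.Helper31.Grid
open Pool.Agent.Helper52.Grid

variable {s : List Sub} {M : ℕ} {a ch : ℕ → Bool} {S : Pt → Prop}

/-- the value of `S` at column `j` of subcolumn `k` and line `r` of row `i` -/
def Q (S : Pt → Prop) (k j i r : ℕ) : Prop := S (5 + 4 * k + j, 4 + 6 * i + r)

theorem Q4 (k i r : ℕ) : Q S k 4 i r ↔ Q S (k + 1) 0 i r := by
  unfold Q
  rw [show 5 + 4 * k + 4 = 5 + 4 * (k + 1) + 0 by omega]

theorem Q6 (k j i : ℕ) : Q S k j i 6 ↔ Q S k j (i + 1) 0 := by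
  unfold Q
  rw [show 4 + 6 * i + 6 = 4 + 6 * (i + 1) + 0 by omega]

/-- `S` is closed under the used edges -/
structure Cl (s : List Sub) (M : ℕ) (a ch : ℕ → Bool) (S : Pt → Prop) : Prop where
  h : ∀ x y, hUse s M a ch x y = true → (S (x, y) ↔ S (x + 1, y))
  v : ∀ x y, vUse s M a ch x y = true → (S (x, y) ↔ S (x, y + 1))

theorem Cl.qh (hS : Cl s M a ch S) {k i j r : ℕ} (hk : k < s.length) (hi : i < 2 * M + 1)
    (hj : j < 4) (hr : r < 6)
    (hu : useOf (hCell (kind (sg s k) i) r j)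
      (hOc (kind (sg s k) i) r (bst s a i k) (ch k)) = true) :
    Q S k j i r ↔ Q S k (j + 1) i r :=
  hS.h _ _ ((hUse_cell hk hi hj hr).trans hu)

theorem Cl.qv (hS : Cl s M a ch S) {k i j r : ℕ} (hk : k < s.length) (hi : i < 2 * M + 1)
    (hj : j < 4) (hr : r < 6)
    (hu : useOf (vCell (kind (sg s k) i) r j)
      (vOc (kind (sg s k) i) r (bst s a i k) (ch k)) = true) :
    Q S k j i r ↔ Q S k j i (r + 1) :=
  hS.v _ _ ((vUse_cell hk hi hj hr).trans hu)

/-- edges of a fixed cell -/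
theorem Cl.qh' (hS : Cl s M a ch S) {k i : ℕ} {kd : Kind} {b c : Bool} (hk : k < s.length)
    (hi : i < 2 * M + 1) (hkd : kind (sg s k) i = kd) (hb : bst s a i k = b) (hc : ch k = c)
    (j r : ℕ) (hj : j < 4) (hr : r < 6) (hu : useOf (hCell kd r j) (hOc kd r b c) = true) :
    Q S k j i r ↔ Q S k (j + 1) i r := by
  subst hkd hb hc
  exact hS.qh hk hi hj hr hu

theorem Cl.qv' (hS : Cl s M a ch S) {k i : ℕ} {kd : Kind} {b c : Bool} (hk : k < s.length)
    (hi : i < 2 * M + 1) (hkd : kind (sg s k) i = kd) (hb : bst s a i k = b) (hc : ch k = c)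
    (j r : ℕ) (hj : j < 4) (hr : r < 6) (hu : useOf (vCell kd r j) (vOc kd r b c) = true) :
    Q S k j i r ↔ Q S k j i (r + 1) := by
  subst hkd hb hc
  exact hS.qv hk hi hj hr hu

/-! kinds -/

theorem kind_none (i : ℕ) : kind none i = .plain := rfl

theorem kind_cross {o : Sub} {i : ℕ} (h : kind o i = .cross) :
    ∃ v, o = some (v, true) ∧ i < v := by
  rcases o with _ | ⟨v, b⟩
  · simp [kind] at h
  · cases b
    · simp only [kind] at h
      split_ifs at h <;> simp_all
    · simp only [kind] at h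
      split_ifs at h with h1 h2
      exact ⟨v, rfl, h2.2⟩

theorem kind_dblk {o : Sub} {i : ℕ} (h : kind o i = .dblk) : o = some (i, true) := by
  rcases o with _ | ⟨v, b⟩
  · simp [kind] at h
  · cases b
    · simp only [kind] at h
      split_ifs at h <;> simp_all
    · simp only [kind] at h
      split_ifs at h with h1
      · rw [h1]

theorem kind_blk {o : Sub} {i : ℕ} (h : kind o i = .blk) : o = some (i, false) := by
  rcases o with _ | ⟨v, b⟩
  · simp [kind] at h
  · cases b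
    · simp only [kind] at h
      split_ifs at h with h1 <;> simp_all
    · simp only [kind] at h
      split_ifs at h with h1 <;> simp_all

theorem kind_docked {v i : ℕ} (h : i ≤ v) :
    kind (some (v, true)) i = .cross ∨ kind (some (v, true)) i = .dblk := by
  rcases h.lt_or_eq with h | h
  · left
    have : i ≠ v := h.ne
    simp [kind, this, h]
  · right
    simp [kind, h]

theorem kind_cross_of {v i : ℕ} (h : i < v) : kind (some (v, true)) i = .cross := by
  have : i ≠ v := h.ne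
  simp [kind, this, h]

/-! bst -/

theorem cnt_succ {i k : ℕ} (hk : k < s.length) :
    cnt s i (k + 1) = cnt s i k + if (sg s k).map Prod.fst = some i then 1 else 0 := by
  have h : s.take (k + 1) = s.take k ++ [sg s k] := by
    rw [List.take_add_one]
    congr 1
    simp [sg, List.getD, List.getElem?_eq_getElem hk]
  rw [cnt, cnt, h, List.filter_append, List.length_append]
  congr 1
  rw [List.filter_cons, List.filter_nil]
  by_cases hc : (sg s k).map Prod.fst = some i
  · rw [if_pos hc, if_pos (decide_eq_true hc)]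
    rfl
  · rw [if_neg hc, if_neg (by simpa using hc)]
    rfl

theorem bst_succ_block {i k : ℕ} {d : Bool} (hk : k < s.length) (h : sg s k = some (i, d)) :
    bst s a i (k + 1) = !bst s a i k := by
  rw [bst, bst, cnt_succ hk, h]
  simp only [Option.map_some, if_true]
  have : (decide ((cnt s i k + 1) % 2 = 0)) = !(decide (cnt s i k % 2 = 0)) := by
    rcases Nat.mod_two_eq_zero_or_one (cnt s i k) with h | h
    · have h2 : (cnt s i k + 1) % 2 = 1 := by omega
      simp [h, h2]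
    · have h2 : (cnt s i k + 1) % 2 = 0 := by omega
      simp [h, h2]
  rw [this]
  cases a i <;> cases decide (cnt s i k % 2 = 0) <;> rfl

theorem bst_succ_other {i k : ℕ} (hk : k < s.length) (h : ∀ d, sg s k ≠ some (i, d)) :
    bst s a i (k + 1) = bst s a i k := by
  rw [bst, bst, cnt_succ hk, if_neg, add_zero]
  intro hh
  rcases ho : sg s k with _ | ⟨v, d⟩
  · simp [ho] at hh
  · rw [ho] at hh
    simp only [Option.map_some, Option.some.injEq] at hh
    exact h d (by rw [ho, hh])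

/-- the strands `r = 1, 3, 5` of a cell without a block -/
theorem strand_plain (hS : Cl s M a ch S) {k i : ℕ} (hk : k < s.length) (hi : i < 2 * M + 1)
    (hkd : kind (sg s k) i = .plain) (r : ℕ) (hr : r = 1 ∨ r = 3 ∨ r = 5) :
    (Q S k 1 i r ↔ Q S k 0 i r) ∧ (Q S k 2 i r ↔ Q S k 0 i r) ∧ (Q S k 3 i r ↔ Q S k 0 i r) ∧
      (Q S k 4 i r ↔ Q S k 0 i r) := by
  have e : ∀ j, j < 4 → (Q S k j i r ↔ Q S k (j + 1) i r) := by
    intro j hj
    refine hS.qh' hk hi hkd rfl rfl j r hj (by omega) ?_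
    rcases hr with rfl | rfl | rfl <;> rfl
  have e0 := e 0 (by omega)
  have e1 := e 1 (by omega)
  have e2 := e 2 (by omega)
  have e3 := e 3 (by omega)
  exact ⟨e0.symm, (e0.trans e1).symm, ((e0.trans e1).trans e2).symm,
    (((e0.trans e1).trans e2).trans e3).symm⟩

theorem strand_cross (hS : Cl s M a ch S) {k i : ℕ} (hk : k < s.length) (hi : i < 2 * M + 1)
    (hrow : ∀ k i d, sg s k = some (i, d) → i < 2 * M + 1)
    (hkd : kind (sg s k) i = .cross) (r : ℕ) (hr : r = 1 ∨ r = 3 ∨ r = 5) :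
    (Q S k 1 i r ↔ Q S k 0 i r) ∧ (Q S k 2 i r ↔ Q S k 0 i r) ∧ (Q S k 3 i r ↔ Q S k 0 i r) ∧
      (Q S k 4 i r ↔ Q S k 0 i r) := by
  have e : ∀ j, j < 4 → j ≠ 1 → (Q S k j i r ↔ Q S k (j + 1) i r) := by
    intro j hj h1
    refine hS.qh' hk hi hkd rfl rfl j r hj (by omega) ?_
    rcases hr with rfl | rfl | rfl <;>
    · interval_cases j <;> first | rfl | exact absurd rfl h1
  have e0 := e 0 (by omega) (by omega)
  have e2 := e 2 (by omega) (by omega)
  have e3 := e 3 (by omega) (by omega)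
  have e1 : Q S k 1 i r ↔ Q S k 2 i r := by
    cases hc : ch k
    · -- down
      have d1 : Q S k 1 i r ↔ Q S k 1 i (r + 1) := by
        refine hS.qv' hk hi hkd rfl hc 1 r (by omega) (by omega) ?_
        rcases hr with rfl | rfl | rfl <;> rfl
      have d2 : Q S k 2 i r ↔ Q S k 2 i (r + 1) := by
        refine hS.qv' hk hi hkd rfl hc 2 r (by omega) (by omega) ?_
        rcases hr with rfl | rfl | rfl <;> rfl
      have d3 : Q S k 1 i (r + 1) ↔ Q S k 2 i (r + 1) := by
        rcases hr with rfl | rfl | rfl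
        · exact hS.qh' hk hi hkd rfl hc 1 2 (by omega) (by omega) rfl
        · exact hS.qh' hk hi hkd rfl hc 1 4 (by omega) (by omega) rfl
        · rw [Q6, Q6]
          obtain ⟨v, hv, hiv⟩ := kind_cross hkd
          have hv' := hrow k v true hv
          rcases kind_docked (v := v) (i := i + 1) (by omega) with h | h
          · rw [← hv] at h
            exact hS.qh' hk (by omega) h rfl hc 1 0 (by omega) (by omega) rfl
          · rw [← hv] at h
            exact hS.qh' hk (by omega) h rfl hc 1 0 (by omega) (by omega) rfl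
      exact (d1.trans d3).trans d2.symm
    · -- up
      obtain ⟨q, rfl⟩ : ∃ q, r = q + 1 := ⟨r - 1, by omega⟩
      have hq : q = 0 ∨ q = 2 ∨ q = 4 := by omega
      have d1 : Q S k 1 i q ↔ Q S k 1 i (q + 1) := by
        refine hS.qv' hk hi hkd rfl hc 1 q (by omega) (by omega) ?_
        rcases hq with rfl | rfl | rfl <;> rfl
      have d2 : Q S k 2 i q ↔ Q S k 2 i (q + 1) := by
        refine hS.qv' hk hi hkd rfl hc 2 q (by omega) (by omega) ?_
        rcases hq with rfl | rfl | rfl <;> rfl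
      have d3 : Q S k 1 i q ↔ Q S k 2 i q := by
        rcases hq with rfl | rfl | rfl
        · exact hS.qh' hk hi hkd rfl hc 1 0 (by omega) (by omega) rfl
        · exact hS.qh' hk hi hkd rfl hc 1 2 (by omega) (by omega) rfl
        · exact hS.qh' hk hi hkd rfl hc 1 4 (by omega) (by omega) rfl
      exact (d1.symm.trans d3).trans d2
  exact ⟨e0.symm, (e0.trans e1).symm, ((e0.trans e1).trans e2).symm,
    (((e0.trans e1).trans e2).trans e3).symm⟩

/-- all vertices of a block, `S` in the state `true` -/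
structure BT (S : Pt → Prop) (k i : ℕ) : Prop where
  a1 : Q S k 1 i 1 ↔ Q S k 0 i 1
  a2 : Q S k 2 i 1 ↔ Q S k 0 i 1
  a3 : Q S k 3 i 1 ↔ Q S k 0 i 1
  a4 : Q S k 4 i 1 ↔ Q S k 0 i 1
  b1 : Q S k 0 i 2 ↔ Q S k 0 i 3
  b2 : Q S k 1 i 2 ↔ Q S k 0 i 3
  b3 : Q S k 1 i 3 ↔ Q S k 0 i 3
  b4 : Q S k 1 i 4 ↔ Q S k 0 i 3
  b5 : Q S k 1 i 5 ↔ Q S k 0 i 3
  b6 : Q S k 0 i 5 ↔ Q S k 0 i 3
  t1 : Q S k 3 i 3 ↔ Q S k 4 i 3
  t2 : Q S k 3 i 2 ↔ Q S k 4 i 3
  t3 : Q S k 2 i 2 ↔ Q S k 4 i 3
  t4 : Q S k 2 i 3 ↔ Q S k 4 i 3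
  t5 : Q S k 2 i 4 ↔ Q S k 4 i 3
  t6 : Q S k 2 i 5 ↔ Q S k 4 i 3
  t7 : Q S k 3 i 5 ↔ Q S k 4 i 3
  t8 : Q S k 4 i 5 ↔ Q S k 4 i 3

structure BF (S : Pt → Prop) (k i : ℕ) : Prop where
  a1 : Q S k 1 i 1 ↔ Q S k 0 i 1
  a2 : Q S k 1 i 2 ↔ Q S k 0 i 1
  a3 : Q S k 0 i 2 ↔ Q S k 0 i 1
  a4 : Q S k 0 i 3 ↔ Q S k 0 i 1
  b1 : Q S k 3 i 1 ↔ Q S k 4 i 1
  b2 : Q S k 2 i 1 ↔ Q S k 4 i 1
  b3 : Q S k 2 i 2 ↔ Q S k 4 i 1
  b4 : Q S k 3 i 2 ↔ Q S k 4 i 1
  b5 : Q S k 3 i 3 ↔ Q S k 4 i 1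
  b6 : Q S k 4 i 3 ↔ Q S k 4 i 1
  t1 : Q S k 1 i 5 ↔ Q S k 0 i 5
  t2 : Q S k 1 i 4 ↔ Q S k 0 i 5
  t3 : Q S k 1 i 3 ↔ Q S k 0 i 5
  t4 : Q S k 2 i 3 ↔ Q S k 0 i 5
  t5 : Q S k 2 i 4 ↔ Q S k 0 i 5
  t6 : Q S k 2 i 5 ↔ Q S k 0 i 5
  t7 : Q S k 3 i 5 ↔ Q S k 0 i 5
  t8 : Q S k 4 i 5 ↔ Q S k 0 i 5

theorem block_true (hS : Cl s M a ch S) {k i : ℕ} (hk : k < s.length) (hi : i < 2 * M + 1)
    (hkd : kind (sg s k) i = .blk ∨ kind (sg s k) i = .dblk) (hb : bst s a i k = true) :
    BT S k i := by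
  have H : ∀ j r, j < 4 → r < 6 → (∀ kd c, (kd = .blk ∨ kd = .dblk) →
      useOf (hCell kd r j) (hOc kd r true c) = true) → (Q S k j i r ↔ Q S k (j + 1) i r) := by
    intro j r hj hr hu
    exact hS.qh' hk hi rfl hb rfl j r hj hr (hu _ _ hkd)
  have V : ∀ j r, j < 4 → r < 6 → (∀ kd c, (kd = .blk ∨ kd = .dblk) →
      useOf (vCell kd r j) (vOc kd r true c) = true) → (Q S k j i r ↔ Q S k j i (r + 1)) := by
    intro j r hj hr hu
    exact hS.qv' hk hi rfl hb rfl j r hj hr (hu _ _ hkd)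
  have F : ∀ {P : Kind → Bool → Prop}, (∀ c, P .blk c) → (∀ c, P .dblk c) →
      (∀ kd c, (kd = .blk ∨ kd = .dblk) → P kd c) := by
    intro P h1 h2 kd c h
    rcases h with rfl | rfl
    · exact h1 c
    · exact h2 c
  have h01 := H 0 1 (by omega) (by omega) (F (fun _ => rfl) (fun _ => rfl))
  have h21 := H 2 1 (by omega) (by omega) (F (fun _ => rfl) (fun _ => rfl))
  have h31 := H 3 1 (by omega) (by omega) (F (fun _ => rfl) (fun _ => rfl))
  have h02 := H 0 2 (by omega) (by omega) (F (fun _ => rfl) (fun _ => rfl))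
  have h22 := H 2 2 (by omega) (by omega) (F (fun _ => rfl) (fun _ => rfl))
  have h33 := H 3 3 (by omega) (by omega) (F (fun _ => rfl) (fun _ => rfl))
  have h05 := H 0 5 (by omega) (by omega) (F (fun _ => rfl) (fun _ => rfl))
  have h25 := H 2 5 (by omega) (by omega) (F (fun _ => rfl) (fun _ => rfl))
  have h35 := H 3 5 (by omega) (by omega) (F (fun _ => rfl) (fun _ => rfl))
  have v02 := V 0 2 (by omega) (by omega) (F (fun _ => rfl) (fun _ => rfl))
  have v32 := V 3 2 (by omega) (by omega) (F (fun _ => rfl) (fun _ => rfl))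
  have v13 := V 1 3 (by omega) (by omega) (F (fun _ => rfl) (fun _ => rfl))
  have v23 := V 2 3 (by omega) (by omega) (F (fun _ => rfl) (fun _ => rfl))
  have v14 := V 1 4 (by omega) (by omega) (F (fun _ => rfl) (fun _ => rfl))
  have v24 := V 2 4 (by omega) (by omega) (F (fun _ => rfl) (fun _ => rfl))
  have v12 := V 1 2 (by omega) (by omega) (F (fun _ => rfl) (fun _ => rfl))
  have v22 := V 2 2 (by omega) (by omega) (F (fun _ => rfl) (fun _ => rfl))
  have h11 : Q S k 1 i 1 ↔ Q S k 2 i 1 := by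
    rcases hkd with hkd | hkd
    · exact hS.qh' hk hi hkd hb rfl 1 1 (by omega) (by omega) rfl
    · cases hc : ch k
      · exact hS.qh' hk hi hkd hb hc 1 1 (by omega) (by omega) rfl
      · have d1 := hS.qv' hk hi hkd hb hc 1 0 (by omega) (by omega) rfl
        have d2 := hS.qv' hk hi hkd hb hc 2 0 (by omega) (by omega) rfl
        have d3 := hS.qh' hk hi hkd hb hc 1 0 (by omega) (by omega) rfl
        exact (d1.symm.trans d3).trans d2
  simp only [Nat.reduceAdd] at *
  have c1 := h01.symm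
  have c2 := h11.symm.trans c1
  have c3 := h21.symm.trans c2
  have c4 := h31.symm.trans c3
  have e1 := v02
  have e2 := h02.symm.trans e1
  have e3 := v12.symm.trans e2
  have e4 := v13.symm.trans e3
  have e5 := v14.symm.trans e4
  have e6 := h05.trans e5
  have f1 := h33
  have f2 := v32.trans f1
  have f3 := h22.trans f2
  have f4 := v22.symm.trans f3
  have f5 := v23.symm.trans f4
  have f6 := v24.symm.trans f5
  have f7 := h25.symm.trans f6
  have f8 := h35.symm.trans f7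
  exact ⟨c1, c2, c3, c4, e1, e2, e3, e4, e5, e6, f1, f2, f3, f4, f5, f6, f7, f8⟩

theorem block_false (hS : Cl s M a ch S) {k i : ℕ} (hk : k < s.length) (hi : i < 2 * M + 1)
    (hkd : kind (sg s k) i = .blk ∨ kind (sg s k) i = .dblk) (hb : bst s a i k = false) :
    BF S k i := by
  have H : ∀ j r, j < 4 → r < 6 → (∀ kd c, (kd = .blk ∨ kd = .dblk) →
      useOf (hCell kd r j) (hOc kd r false c) = true) → (Q S k j i r ↔ Q S k (j + 1) i r) := by
    intro j r hj hr hu
    exact hS.qh' hk hi rfl hb rfl j r hj hr (hu _ _ hkd)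
  have V : ∀ j r, j < 4 → r < 6 → (∀ kd c, (kd = .blk ∨ kd = .dblk) →
      useOf (vCell kd r j) (vOc kd r false c) = true) → (Q S k j i r ↔ Q S k j i (r + 1)) := by
    intro j r hj hr hu
    exact hS.qv' hk hi rfl hb rfl j r hj hr (hu _ _ hkd)
  have F : ∀ {P : Kind → Bool → Prop}, (∀ c, P .blk c) → (∀ c, P .dblk c) →
      (∀ kd c, (kd = .blk ∨ kd = .dblk) → P kd c) := by
    intro P h1 h2 kd c h
    rcases h with rfl | rfl
    · exact h1 c
    · exact h2 c
  have h01 := H 0 1 (by omega) (by omega) (F (fun _ => rfl) (fun _ => rfl))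
  have h21 := H 2 1 (by omega) (by omega) (F (fun _ => rfl) (fun _ => rfl))
  have h31 := H 3 1 (by omega) (by omega) (F (fun _ => rfl) (fun _ => rfl))
  have h02 := H 0 2 (by omega) (by omega) (F (fun _ => rfl) (fun _ => rfl))
  have h22 := H 2 2 (by omega) (by omega) (F (fun _ => rfl) (fun _ => rfl))
  have h33 := H 3 3 (by omega) (by omega) (F (fun _ => rfl) (fun _ => rfl))
  have h05 := H 0 5 (by omega) (by omega) (F (fun _ => rfl) (fun _ => rfl))
  have h25 := H 2 5 (by omega) (by omega) (F (fun _ => rfl) (fun _ => rfl))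
  have h35 := H 3 5 (by omega) (by omega) (F (fun _ => rfl) (fun _ => rfl))
  have v02 := V 0 2 (by omega) (by omega) (F (fun _ => rfl) (fun _ => rfl))
  have v32 := V 3 2 (by omega) (by omega) (F (fun _ => rfl) (fun _ => rfl))
  have v13 := V 1 3 (by omega) (by omega) (F (fun _ => rfl) (fun _ => rfl))
  have v23 := V 2 3 (by omega) (by omega) (F (fun _ => rfl) (fun _ => rfl))
  have v14 := V 1 4 (by omega) (by omega) (F (fun _ => rfl) (fun _ => rfl))
  have v24 := V 2 4 (by omega) (by omega) (F (fun _ => rfl) (fun _ => rfl))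
  have v11 := V 1 1 (by omega) (by omega) (F (fun _ => rfl) (fun _ => rfl))
  have v21 := V 2 1 (by omega) (by omega) (F (fun _ => rfl) (fun _ => rfl))
  have h13 := H 1 3 (by omega) (by omega) (F (fun _ => rfl) (fun _ => rfl))
  simp only [Nat.reduceAdd] at *
  have c1 := h01.symm
  have c2 := v11.symm.trans c1
  have c3 := h02.trans c2
  have c4 := v02.symm.trans c3
  have e1 := h31
  have e2 := h21.trans e1
  have e3 := v21.symm.trans e2
  have e4 := h22.symm.trans e3
  have e5 := v32.symm.trans e4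
  have e6 := h33.symm.trans e5
  have f1 := h05.symm
  have f2 := v14.trans f1
  have f3 := v13.trans f2
  have f4 := h13.symm.trans f3
  have f5 := v23.symm.trans f4
  have f6 := v24.symm.trans f5
  have f7 := h25.symm.trans f6
  have f8 := h35.symm.trans f7
  exact ⟨c1, c2, c3, c4, e1, e2, e3, e4, e5, e6, f1, f2, f3, f4, f5, f6, f7, f8⟩

end Pool.Agent.Helper31.Grid
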