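import Pool.Agent.Helper52.Grid.Defs

namespace Pool.Agent.Helper31.Grid
open Pool.Agent.Helper52.Grid

/-- is an edge of cost `t` used, if the optional edges are used according to `o` -/
def useOf (t : ℕ) (o : Bool) : Bool := if t = 0 then true else if t = 2 then o else false

/-- optional horizontal edges in a cell -/
def hOc (kd : Kind) (r : ℕ) (b c : Bool) : Bool :=
  match kd, r with
  | .dblk, 1 => b && !c
  | .dblk, 3 => !b
  | .blk, 1 => b
  | .blk, 3 => !b
  | _, _ => false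

/-- optional vertical edges in a cell -/
def vOc (kd : Kind) (r : ℕ) (b c : Bool) : Bool :=
  match kd, r with
  | .cross, r => if r % 2 = 0 then c else !c
  | .dblk, 0 => c
  | _, 1 => !b
  | _, _ => b

variable {s : List Sub} {M : ℕ} {a ch : ℕ → Bool}

theorem hC_cell {k i j r : ℕ} (hk : k < s.length) (hi : i < 2 * M + 1) (hj : j < 4)
    (hr : r < 6) : hC s M (5 + 4 * k + j) (4 + 6 * i + r) = hCell (kind (sg s k) i) r j := by
  have e1 : ¬ (4 + 6 * i + r < 4) := by omega
  have e2 : (4 + 6 * i + r - 4) / 6 = i := by omega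
  have e3 : (4 + 6 * i + r - 4) % 6 = r := by omega
  have e4 : ¬ (5 + 4 * k + j < 5) := by omega
  have e5 : 5 + 4 * k + j < 5 + 4 * s.length := by omega
  have e6 : (5 + 4 * k + j - 5) / 4 = k := by omega
  have e7 : (5 + 4 * k + j - 5) % 4 = j := by omega
  rw [hC, if_neg e1, e2, if_pos hi, if_neg e4, if_pos e5, e3, e6, e7]

theorem vC_cell {k i j r : ℕ} (hk : k < s.length) (hi : i < 2 * M + 1) (hj : j < 4)
    (hr : r < 6) : vC s M (5 + 4 * k + j) (4 + 6 * i + r) = vCell (kind (sg s k) i) r j := by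
  have e1 : ¬ (4 + 6 * i + r < 4) := by omega
  have e2 : (4 + 6 * i + r - 4) / 6 = i := by omega
  have e3 : (4 + 6 * i + r - 4) % 6 = r := by omega
  have e4 : ¬ (5 + 4 * k + j < 5) := by omega
  have e5 : 5 + 4 * k + j < 5 + 4 * s.length := by omega
  have e6 : (5 + 4 * k + j - 5) / 4 = k := by omega
  have e7 : (5 + 4 * k + j - 5) % 4 = j := by omega
  rw [vC, if_neg e1, e2, if_pos hi, if_neg e4, if_pos e5, e3, e6, e7]

theorem hO_cell {k i j r : ℕ} (hk : k < s.length) (hj : j < 4)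
    (hr : r < 6) : hO s a ch (5 + 4 * k + j) (4 + 6 * i + r) =
      hOc (kind (sg s k) i) r (bst s a i k) (ch k) := by
  have e1 : ¬ (4 + 6 * i + r < 4) := by omega
  have e2 : (4 + 6 * i + r - 4) / 6 = i := by omega
  have e3 : (4 + 6 * i + r - 4) % 6 = r := by omega
  have e4 : ¬ (5 + 4 * k + j < 5) := by omega
  have e5 : 5 + 4 * k + j < 5 + 4 * s.length := by omega
  have e6 : (5 + 4 * k + j - 5) / 4 = k := by omega
  rw [hO, if_neg e1, if_neg e4, if_pos e5, e2, e3, e6]
  rfl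

theorem vO_cell {k i j r : ℕ} (hk : k < s.length) (hj : j < 4)
    (hr : r < 6) : vO s a ch (5 + 4 * k + j) (4 + 6 * i + r) =
      vOc (kind (sg s k) i) r (bst s a i k) (ch k) := by
  have e1 : ¬ (4 + 6 * i + r < 4) := by omega
  have e2 : (4 + 6 * i + r - 4) / 6 = i := by omega
  have e3 : (4 + 6 * i + r - 4) % 6 = r := by omega
  have e4 : ¬ (5 + 4 * k + j < 5) := by omega
  have e5 : 5 + 4 * k + j < 5 + 4 * s.length := by omega
  have e6 : (5 + 4 * k + j - 5) / 4 = k := by omega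
  rw [vO, if_neg e1, if_neg e4, if_pos e5, e2, e3, e6]
  rfl

theorem hUse_cell {k i j r : ℕ} (hk : k < s.length) (hi : i < 2 * M + 1) (hj : j < 4)
    (hr : r < 6) : hUse s M a ch (5 + 4 * k + j) (4 + 6 * i + r) =
      useOf (hCell (kind (sg s k) i) r j) (hOc (kind (sg s k) i) r (bst s a i k) (ch k)) := by
  rw [hUse, hC_cell hk hi hj hr, hO_cell hk hj hr]
  rfl

theorem vUse_cell {k i j r : ℕ} (hk : k < s.length) (hi : i < 2 * M + 1) (hj : j < 4)
    (hr : r < 6) : vUse s M a ch (5 + 4 * k + j) (4 + 6 * i + r) =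
      useOf (vCell (kind (sg s k) i) r j) (vOc (kind (sg s k) i) r (bst s a i k) (ch k)) := by
  rw [vUse, vC_cell hk hi hj hr, vO_cell hk hj hr]
  rfl

/-! left end -/

theorem hUse_left {x i r : ℕ} (hx : x < 5) (hi : i < 2 * M + 1) (hr : r < 6) :
    hUse s M a ch x (4 + 6 * i + r) = useOf (hL M i r x) (bst s a i 0) := by
  have e1 : ¬ (4 + 6 * i + r < 4) := by omega
  have e2 : (4 + 6 * i + r - 4) / 6 = i := by omega
  have e3 : (4 + 6 * i + r - 4) % 6 = r := by omega
  rw [hUse, hC, hO, if_neg e1, if_neg e1, e2, if_pos hi, if_pos hx, if_pos hx, e3]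
  rfl

theorem vUse_left {x i r : ℕ} (hx : x < 5) (hi : i < 2 * M + 1) (hr : r < 6) :
    vUse s M a ch x (4 + 6 * i + r) = useOf (vL M i r x) (!bst s a i 0) := by
  have e1 : ¬ (4 + 6 * i + r < 4) := by omega
  have e2 : (4 + 6 * i + r - 4) / 6 = i := by omega
  have e3 : (4 + 6 * i + r - 4) % 6 = r := by omega
  rw [vUse, vC, vO, if_neg e1, if_neg e1, e2, if_pos hi, if_pos hx, if_pos hx, e3]
  rfl

theorem hUse_right {x i r : ℕ} (hi : i < 2 * M + 1) (hr : r < 6) :
    hUse s M a ch (5 + 4 * s.length + x) (4 + 6 * i + r) =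
      useOf (hR r x) (!bst s a i s.length) := by
  have e1 : ¬ (4 + 6 * i + r < 4) := by omega
  have e2 : (4 + 6 * i + r - 4) / 6 = i := by omega
  have e3 : (4 + 6 * i + r - 4) % 6 = r := by omega
  have e4 : ¬ (5 + 4 * s.length + x < 5) := by omega
  have e5 : ¬ (5 + 4 * s.length + x < 5 + 4 * s.length) := by omega
  have e6 : 5 + 4 * s.length + x - (5 + 4 * s.length) = x := by omega
  rw [hUse, hC, hO, if_neg e1, if_neg e1, e2, if_pos hi, if_neg e4, if_neg e4, if_neg e5,
    if_neg e5, e3, e6]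
  rfl

theorem vUse_right {x i r : ℕ} (hi : i < 2 * M + 1) (hr : r < 6) :
    vUse s M a ch (5 + 4 * s.length + x) (4 + 6 * i + r) =
      useOf (vR i r x) (bst s a i s.length) := by
  have e1 : ¬ (4 + 6 * i + r < 4) := by omega
  have e2 : (4 + 6 * i + r - 4) / 6 = i := by omega
  have e3 : (4 + 6 * i + r - 4) % 6 = r := by omega
  have e4 : ¬ (5 + 4 * s.length + x < 5) := by omega
  have e5 : ¬ (5 + 4 * s.length + x < 5 + 4 * s.length) := by omega
  have e6 : 5 + 4 * s.length + x - (5 + 4 * s.length) = x := by omega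
  rw [vUse, vC, vO, if_neg e1, if_neg e1, e2, if_pos hi, if_neg e4, if_neg e4, if_neg e5,
    if_neg e5, e3, e6]
  rfl

/-! above the rows -/

theorem hUse_top {x y : ℕ} (hy : y < 4) :
    hUse s M a ch x y = useOf (hT s x y) (if y = 2 then !ch ((x - 5) / 4) else false) := by
  rw [hUse, hC, hO, if_pos hy, if_pos hy]
  rfl

theorem vUse_top {x y : ℕ} (hy : y < 4) :
    vUse s M a ch x y = useOf (vT s x y) (if y = 2 then ch ((x - 5) / 4)
      else !ch ((x - 5) / 4)) := by
  rw [vUse, vC, vO, if_pos hy, if_pos hy]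
  rfl

end Pool.Agent.Helper31.Grid
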