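import Pool.Agent.Helper31.Grid.Row

namespace Pool.Agent.Helper31.Grid
open Pool.Agent.Helper52.Grid

variable {s : List Sub} {M : ℕ} {a ch : ℕ → Bool} {S : Pt → Prop}

theorem sg_none {k : ℕ} (hk : s.length ≤ k) : sg s k = none := by
  simp [sg, List.getD, List.getElem?_eq_none hk]

theorem dock_iff {o : Sub} : dock o = true ↔ ∃ v, o = some (v, true) := by
  rcases o with _ | ⟨v, b⟩
  · simp [dock]
  · cases b <;> simp [dock]

theorem hT_cell {k j y : ℕ} (hk : k < s.length) (hj : j < 4) :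
    hT s (5 + 4 * k + j) y =
      (if y = 3 then (if j = 1 ∧ dock (sg s k) = true then 2 else 0)
      else if y = 0 then 4
      else if j = 3 ∧ sg s (k + 1) = none then 4
      else if y = 2 ∧ j = 1 ∧ dock (sg s k) = true then 2
      else 0) := by
  have e4 : ¬ (5 + 4 * k + j < 5) := by omega
  have e5 : 5 + 4 * k + j < 5 + 4 * s.length := by omega
  have e6 : (5 + 4 * k + j - 5) / 4 = k := by omega
  have e7 : (5 + 4 * k + j - 5) % 4 = j := by omega
  rw [hT, if_neg e4, if_pos e5, e6, e7]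

theorem vT_cell {k j y : ℕ} (hk : k < s.length) (hj : j < 4) :
    vT s (5 + 4 * k + j) y =
      (if y = 0 then 4
    else if y = 1 then
      (if j = 0 ∧ sg s k = none then 0
      else if j = 3 ∧ sg s (k + 1) = none then 0 else 4)
    else (if (j = 1 ∨ j = 2) ∧ dock (sg s k) = true then 2
      else 4)) := by
  have e4 : ¬ (5 + 4 * k + j < 5) := by omega
  have e5 : 5 + 4 * k + j < 5 + 4 * s.length := by omega
  have e6 : (5 + 4 * k + j - 5) / 4 = k := by omega
  have e7 : (5 + 4 * k + j - 5) % 4 = j := by omega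
  rw [vT, if_neg e4, if_pos e5, e6, e7]

theorem chosen_div {k j : ℕ} (hj : j < 4) : (5 + 4 * k + j - 5) / 4 = k := by omega

theorem useOf_zero (o : Bool) : useOf 0 o = true := rfl

theorem useOf_two : useOf 2 true = true := rfl

theorem Cl.top_h (hS : Cl s M a ch S) {k j y : ℕ} (hk : k < s.length) (hj : j < 4) (hy : y < 4)
    (h : hT s (5 + 4 * k + j) y = 0 ∨
      (hT s (5 + 4 * k + j) y = 2 ∧ y = 2 ∧ ch k = false)) :
    S (5 + 4 * k + j, y) ↔ S (5 + 4 * k + j + 1, y) := by
  refine hS.h _ _ ((hUse_top hy).trans ?_)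
  rw [chosen_div hj]
  rcases h with h | ⟨h, h2, h3⟩
  · rw [h]; rfl
  · rw [h, if_pos h2, h3]; rfl

theorem Cl.top_v (hS : Cl s M a ch S) {k j y : ℕ} (hk : k < s.length) (hj : j < 4) (hy : y < 4)
    (h : vT s (5 + 4 * k + j) y = 0 ∨
      (vT s (5 + 4 * k + j) y = 2 ∧ y = 2 ∧ ch k = true) ∨
      (vT s (5 + 4 * k + j) y = 2 ∧ y = 3 ∧ ch k = false)) :
    S (5 + 4 * k + j, y) ↔ S (5 + 4 * k + j, y + 1) := by
  refine hS.v _ _ ((vUse_top hy).trans ?_)
  rw [chosen_div hj]
  rcases h with h | ⟨h, h2, h3⟩ | ⟨h, h2, h3⟩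
  · rw [h]; rfl
  · rw [h, if_pos h2, h3]; rfl
  · rw [h, if_neg (by omega), h3]; rfl

/-- a clause: `k0` is its first subcolumn, `k0 + n` its last one -/
structure IsCl (s : List Sub) (k0 n : ℕ) : Prop where
  start : sg s k0 = none
  lt : k0 < s.length
  mid : ∀ l, k0 < l → l ≤ k0 + n → sg s l ≠ none
  fin : sg s (k0 + n + 1) = none

theorem exists_clause (h0 : 0 < s.length → sg s 0 = none) {k : ℕ} (hk : k < s.length) :
    ∃ k0 n, IsCl s k0 n ∧ k0 ≤ k ∧ k ≤ k0 + n := by
  -- the last `none` before `k`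
  have hex : ∃ k0, k0 ≤ k ∧ sg s k0 = none ∧ ∀ l, k0 < l → l ≤ k → sg s l ≠ none := by
    clear hk
    induction k with
    | zero =>
      refine ⟨0, le_refl _, ?_, fun l h1 h2 => by omega⟩
      by_cases hs : 0 < s.length
      · exact h0 hs
      · exact sg_none (by omega)
    | succ k ih =>
      by_cases hn : sg s (k + 1) = none
      · exact ⟨k + 1, le_refl _, hn, fun l h1 h2 => by omega⟩
      · obtain ⟨k0, h1, h2, h3⟩ := ih
        refine ⟨k0, by omega, h2, ?_⟩
        intro l hl1 hl2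
        rcases Nat.lt_or_ge l (k + 1) with h | h
        · exact h3 l hl1 (by omega)
        · have : l = k + 1 := by omega
          rw [this]; exact hn
  obtain ⟨k0, h1, h2, h3⟩ := hex
  have hex2 : ∃ m, k < m ∧ sg s m = none := ⟨s.length, hk, sg_none (le_refl _)⟩
  classical
  have hm := Nat.find_spec hex2
  have hmin : ∀ m, m < Nat.find hex2 → ¬ (k < m ∧ sg s m = none) := fun m h => Nat.find_min hex2 h
  have hle : Nat.find hex2 ≤ s.length := Nat.find_min' hex2 ⟨hk, sg_none (le_refl _)⟩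
  generalize Nat.find hex2 = m at hm hmin hle
  refine ⟨k0, m - 1 - k0, ⟨h2, by omega, ?_, ?_⟩, h1, by omega⟩
  · intro l hl1 hl2
    rcases Nat.lt_or_ge k l with h | h
    · intro hn
      exact hmin l (by omega) ⟨h, hn⟩
    · exact h3 l hl1 h
  · rw [show k0 + (m - 1 - k0) + 1 = m by omega]
    exact hm.2

/-- the ring of a clause is constant -/
theorem ring_const (hS : Cl s M a ch S) (hc : Choice s a ch) {k0 n : ℕ} (hcl : IsCl s k0 n) :
    ∃ l, k0 < l ∧ l ≤ k0 + n ∧ ch l = true ∧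
      (∀ x, 5 + 4 * k0 ≤ x → x ≤ 8 + 4 * (k0 + n) →
        (S (x, 1) ↔ S (6 + 4 * l, 2)) ∧ (S (x, 2) ↔ S (6 + 4 * l, 2))) := by
  obtain ⟨l, ⟨hl1, hl2, hl3⟩, huniq⟩ := hc.one k0 n hcl.start hcl.lt hcl.mid hcl.fin
  refine ⟨l, hl1, hl2, hl3, ?_⟩
  have hlen : k0 + n < s.length := by
    by_contra hcon
    rcases Nat.eq_zero_or_pos n with h | h
    · subst h; exact hcon hcl.lt
    · exact hcl.mid (k0 + n) (by omega) (le_refl _) (sg_none (by omega))
  have hnone : ∀ k, k0 ≤ k → k < k0 + n → sg s (k + 1) ≠ none := fun k h1 h2 =>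
    hcl.mid (k + 1) (by omega) (by omega)
  -- line 1
  have L1 : ∀ x, 5 + 4 * k0 ≤ x → x < 8 + 4 * (k0 + n) → (S (x, 1) ↔ S (x + 1, 1)) := by
    intro x hx1 hx2
    have e : x = 5 + 4 * ((x - 5) / 4) + (x - 5) % 4 := by omega
    have hk1 : k0 ≤ (x - 5) / 4 := by omega
    have hk2 : (x - 5) / 4 ≤ k0 + n := by omega
    have hj : (x - 5) % 4 < 4 := by omega
    have hjn : (x - 5) % 4 = 3 → (x - 5) / 4 < k0 + n := by omega
    rw [e]
    generalize (x - 5) / 4 = k at *
    generalize (x - 5) % 4 = j at *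
    refine hS.top_h (by omega) hj (by omega) (Or.inl ?_)
    rw [hT_cell (by omega) hj, if_neg (by omega), if_neg (by omega), if_neg, if_neg (by omega)]
    rintro ⟨h1, h2⟩
    exact hnone k hk1 (hjn h1) h2
  -- line 2, outside the chosen dock
  have L2 : ∀ x, 5 + 4 * k0 ≤ x → x < 8 + 4 * (k0 + n) → x ≠ 6 + 4 * l →
      (S (x, 2) ↔ S (x + 1, 2)) := by
    intro x hx1 hx2 hxl
    have e : x = 5 + 4 * ((x - 5) / 4) + (x - 5) % 4 := by omega
    have hk1 : k0 ≤ (x - 5) / 4 := by omega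
    have hk2 : (x - 5) / 4 ≤ k0 + n := by omega
    have hj : (x - 5) % 4 < 4 := by omega
    have hjn : (x - 5) % 4 = 3 → (x - 5) / 4 < k0 + n := by omega
    have hjl : (x - 5) % 4 = 1 → (x - 5) / 4 ≠ l := by omega
    rw [e]
    generalize (x - 5) / 4 = k at *
    generalize (x - 5) % 4 = j at *
    have hT' : hT s (5 + 4 * k + j) 2 = if (j = 1 ∧ dock (sg s k) = true) then 2 else 0 := by
      rw [hT_cell (by omega) hj, if_neg (by omega), if_neg (by omega), if_neg]
      · simp
      · rintro ⟨h1, h2⟩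
        exact hnone k hk1 (hjn h1) h2
    by_cases hd : j = 1 ∧ dock (sg s k) = true
    · refine hS.top_h (by omega) hj (by omega) (Or.inr ⟨by rw [hT', if_pos hd], rfl, ?_⟩)
      by_contra hne
      have hck : ch k = true := by simpa using hne
      have hkk : k0 < k := by
        rcases Nat.lt_or_ge k0 k with h | h
        · exact h
        · have : k = k0 := by omega
          subst this
          rw [hcl.start] at hd
          simp [dock] at hd
      exact hjl hd.1 (huniq k hkk hk2 hck)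
    · exact hS.top_h (by omega) hj (by omega) (Or.inl (by rw [hT', if_neg hd]))
  have V1 : S (5 + 4 * k0, 1) ↔ S (5 + 4 * k0, 2) := by
    refine hS.top_v (j := 0) (k := k0) hcl.lt (by omega) (by omega) (Or.inl ?_)
    rw [vT_cell hcl.lt (by omega), if_neg (by omega), if_pos rfl, if_pos ⟨rfl, hcl.start⟩]
  have V2 : S (8 + 4 * (k0 + n), 1) ↔ S (8 + 4 * (k0 + n), 2) := by
    have e : 8 + 4 * (k0 + n) = 5 + 4 * (k0 + n) + 3 := by omega
    rw [e]
    refine hS.top_v (j := 3) (k := k0 + n) hlen (by omega) (by omega) (Or.inl ?_)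
    rw [vT_cell hlen (by omega), if_neg (by omega), if_pos rfl, if_neg (by omega),
      if_pos ⟨rfl, hcl.fin⟩]
  -- line 1 constant
  have C1 : ∀ x, 5 + 4 * k0 ≤ x → x ≤ 8 + 4 * (k0 + n) → (S (x, 1) ↔ S (5 + 4 * k0, 1)) := by
    intro x hx
    induction x, hx using Nat.le_induction with
    | base => intro _; exact Iff.rfl
    | succ x hx ih =>
      intro h
      exact (L1 x hx (by omega)).symm.trans (ih (by omega))
  have C2 : ∀ x, 5 + 4 * k0 ≤ x → x ≤ 6 + 4 * l → (S (x, 2) ↔ S (5 + 4 * k0, 2)) := by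
    intro x hx
    induction x, hx using Nat.le_induction with
    | base => intro _; exact Iff.rfl
    | succ x hx ih =>
      intro h
      exact (L2 x hx (by omega) (by omega)).symm.trans (ih (by omega))
  have C3 : ∀ x, 7 + 4 * l ≤ x → x ≤ 8 + 4 * (k0 + n) → (S (x, 2) ↔ S (7 + 4 * l, 2)) := by
    intro x hx
    induction x, hx using Nat.le_induction with
    | base => intro _; exact Iff.rfl
    | succ x hx ih =>
      intro h
      exact (L2 x (by omega) (by omega) (by omega)).symm.trans (ih (by omega))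
  have A := C2 (6 + 4 * l) (by omega) (le_refl _)
  have B := C3 (8 + 4 * (k0 + n)) (by omega) (le_refl _)
  have D := C1 (8 + 4 * (k0 + n)) (by omega) (le_refl _)
  -- everything in terms of `S (6 + 4 l, 2)`
  have E1 : S (5 + 4 * k0, 1) ↔ S (6 + 4 * l, 2) := V1.trans A.symm
  have E2 : S (7 + 4 * l, 2) ↔ S (6 + 4 * l, 2) := B.symm.trans (V2.symm.trans (D.trans E1))
  intro x hx1 hx2
  refine ⟨(C1 x hx1 hx2).trans E1, ?_⟩
  rcases Nat.lt_or_ge x (7 + 4 * l) with h | h
  · exact (C2 x hx1 (by omega)).trans A.symm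
  · exact (C3 x h hx2).trans E2

/-- one step of the top strand -/
theorem top_step (hS : Cl s M a ch S) (hc : Choice s a ch)
    (h0 : 0 < s.length → sg s 0 = none) {k j : ℕ} (hk : k < s.length) (hj : j < 4) :
    S (5 + 4 * k + j, 3) ↔ S (5 + 4 * k + j + 1, 3) := by
  by_cases hd : j = 1 ∧ dock (sg s k) = true
  · obtain ⟨rfl, hd⟩ := hd
    cases hch : ch k
    · -- through the cluster of row `0`
      have v1 : S (5 + 4 * k + 1, 3) ↔ S (5 + 4 * k + 1, 4) := by
        refine hS.top_v hk (by omega) (by omega) (Or.inr (Or.inr ⟨?_, rfl, hch⟩))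
        rw [vT_cell hk (by omega), if_neg (by omega), if_neg (by omega),
          if_pos ⟨Or.inl rfl, hd⟩]
      have v2 : S (5 + 4 * k + 2, 3) ↔ S (5 + 4 * k + 2, 4) := by
        refine hS.top_v hk (by omega) (by omega) (Or.inr (Or.inr ⟨?_, rfl, hch⟩))
        rw [vT_cell hk (by omega), if_neg (by omega), if_neg (by omega),
          if_pos ⟨Or.inr rfl, hd⟩]
      have h : Q S k 1 0 0 ↔ Q S k 2 0 0 := by
        obtain ⟨v, hv⟩ := dock_iff.1 hd
        rcases kind_docked (v := v) (i := 0) (by omega) with h | h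
        · rw [← hv] at h
          exact hS.qh' hk (by omega) h rfl hch 1 0 (by omega) (by omega) rfl
        · rw [← hv] at h
          exact hS.qh' hk (by omega) h rfl hch 1 0 (by omega) (by omega) rfl
      exact (v1.trans h).trans v2.symm
    · -- through the ring
      have v1 : S (5 + 4 * k + 1, 2) ↔ S (5 + 4 * k + 1, 3) := by
        refine hS.top_v hk (by omega) (by omega) (Or.inr (Or.inl ⟨?_, rfl, hch⟩))
        rw [vT_cell hk (by omega), if_neg (by omega), if_neg (by omega),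
          if_pos ⟨Or.inl rfl, hd⟩]
      have v2 : S (5 + 4 * k + 2, 2) ↔ S (5 + 4 * k + 2, 3) := by
        refine hS.top_v hk (by omega) (by omega) (Or.inr (Or.inl ⟨?_, rfl, hch⟩))
        rw [vT_cell hk (by omega), if_neg (by omega), if_neg (by omega),
          if_pos ⟨Or.inr rfl, hd⟩]
      obtain ⟨k0, n, hcl, hk1, hk2⟩ := exists_clause h0 hk
      obtain ⟨l, hl1, hl2, hl3, hr⟩ := ring_const hS hc hcl
      have r1 := (hr (5 + 4 * k + 1) (by omega) (by omega)).2
      have r2 := (hr (5 + 4 * k + 2) (by omega) (by omega)).2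
      exact (v1.symm.trans (r1.trans r2.symm)).trans v2
  · refine hS.top_h hk hj (by omega) (Or.inl ?_)
    rw [hT_cell hk hj, if_pos rfl, if_neg hd]

theorem top_T (hS : Cl s M a ch S) (hc : Choice s a ch)
    (h0 : 0 < s.length → sg s 0 = none) : ∀ x, 1 ≤ x → x ≤ 7 + 4 * s.length →
    (S (x, 3) ↔ S (1, 3)) := by
  intro x hx
  induction x, hx using Nat.le_induction with
  | base => intro _; exact Iff.rfl
  | succ x hx ih =>
    intro h
    refine Iff.trans (Iff.symm ?_) (ih (by omega))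
    rcases Nat.lt_or_ge x 5 with h5 | h5
    · refine hS.h _ _ ((hUse_top (by omega)).trans ?_)
      rw [hT, if_pos h5, if_pos ⟨rfl, hx⟩]; rfl
    · rcases Nat.lt_or_ge x (5 + 4 * s.length) with h6 | h6
      · have e : x = 5 + 4 * ((x - 5) / 4) + (x - 5) % 4 := by omega
        rw [e]
        exact top_step hS hc h0 (by omega) (by omega)
      · refine hS.h _ _ ((hUse_top (by omega)).trans ?_)
        rw [hT, if_neg (by omega), if_neg (by omega), if_pos ⟨rfl, by omega⟩]; rfl

/-- rings -/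
theorem ring_T (hS : Cl s M a ch S) (hc : Choice s a ch)
    (h0 : 0 < s.length → sg s 0 = none) {k j : ℕ} (hk : k < s.length) (hj : j < 4) :
    (S (5 + 4 * k + j, 1) ↔ S (1, 3)) ∧ (S (5 + 4 * k + j, 2) ↔ S (1, 3)) := by
  obtain ⟨k0, n, hcl, hk1, hk2⟩ := exists_clause h0 hk
  obtain ⟨l, hl1, hl2, hl3, hr⟩ := ring_const hS hc hcl
  have hls : l < s.length := by
    by_contra hcon
    exact hcl.mid l hl1 hl2 (sg_none (by omega))
  obtain ⟨i, hi, _⟩ := hc.ok l hl3
  have v1 : S (5 + 4 * l + 1, 2) ↔ S (5 + 4 * l + 1, 3) := by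
    refine hS.top_v hls (by omega) (by omega) (Or.inr (Or.inl ⟨?_, rfl, hl3⟩))
    rw [vT_cell hls (by omega), if_neg (by omega), if_neg (by omega),
      if_pos ⟨Or.inl rfl, dock_iff.2 ⟨i, hi⟩⟩]
  have t := top_T hS hc h0 (5 + 4 * l + 1) (by omega) (by omega)
  have e : 6 + 4 * l = 5 + 4 * l + 1 := by omega
  have r := hr (5 + 4 * k + j) (by omega) (by omega)
  rw [e] at r
  exact ⟨r.1.trans (v1.trans t), r.2.trans (v1.trans t)⟩

end Pool.Agent.Helper31.Grid
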